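import Pool.Agent.J6H90.RG.Op
import Pool.Agent.N248.LC.Fin

set_option autoImplicit false
set_option linter.unusedSectionVars false

/-!
# Random regions: lower bounds and cubes
-/

namespace Pool.Agent.J6H90.RG

open Finset MeasureTheory
open Pool.Agent.N248.RC
open scoped RealInnerProductSpace ENNReal

variable {α : Type*} [DecidableEq α]

theorem int_fin (U : Set (E 2)) (f : E 2 → ℂ) (Y : Set (E 3)) (hY : volume Y ≠ ⊤)
    (p : ℝ) (hp : 0 < p) : ∫⁻ ξ in Y, ENNReal.ofReal (‖ext U f ξ‖ ^ p) ≠ ⊤ := by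
  have h : ∫⁻ ξ in Y, ENNReal.ofReal (‖ext U f ξ‖ ^ p) ≤
      ∫⁻ _ξ in Y, ENNReal.ofReal ((∫ x in U, ‖f x‖) ^ p) := by
    refine lintegral_mono fun ξ => ENNReal.ofReal_le_ofReal ?_
    exact Real.rpow_le_rpow (norm_nonneg _) (ext_norm U f ξ) hp.le
  refine (h.trans_lt ?_).ne
  rw [setLIntegral_const]
  exact ENNReal.mul_lt_top ENNReal.ofReal_lt_top hY.lt_top

open Classical in
/-- **From most regions to the whole.** -/
theorem conv (J : Finset α) (k : ℕ) (hk : 1 ≤ k) (hkJ : k ≤ J.card) (θ : α → Set (E 3))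
    (hθ : ∀ i ∈ J, MeasurableSet (θ i)) (hd : (J : Set α).PairwiseDisjoint θ)
    (hYJ : volume (un θ J) ≠ ⊤) (U : Set (E 2)) (q p : ℝ) (hp : 1 ≤ p) (X : ℝ≥0∞)
    (hbad : (((powersetCard k J).filter (fun I => ¬ opNorm U (un θ I) q p ≤ X)).card : ℝ) ≤
      (k : ℝ) / (2 * J.card) * ((J.card.choose k : ℕ) : ℝ)) :
    ENNReal.ofReal (((k : ℝ) / (2 * J.card)) ^ (1 / p)) * opNorm U (un θ J) q p ≤ X := by
  have hp0 : 0 < p := by linarith
  have hN : (0 : ℝ) < J.card := by
    have : 0 < J.card := by omega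
    exact_mod_cast this
  have hk1 : (1 : ℝ) ≤ k := by exact_mod_cast hk
  unfold opNorm
  rw [ENNReal.mul_iSup]
  refine iSup_le fun f => ?_
  rw [ENNReal.mul_iSup]
  refine iSup_le fun hf => ?_
  set A : ℝ≥0∞ := ∫⁻ ξ in un θ J, ENNReal.ofReal (‖ext U f ξ‖ ^ p) with hA
  have hAt : A ≠ ⊤ := int_fin U f _ hYJ p hp0
  set c : ℝ := ((J.card.choose k : ℕ) : ℝ) with hc
  have hc0 : 0 < c := by
    have : 0 < J.card.choose k := Nat.choose_pos hkJ
    rw [hc]; exact_mod_cast this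
  set t : ℝ := (k : ℝ) / (2 * J.card) with ht
  have ht0 : 0 < t := by positivity
  have havg := avg_int J k hk θ hθ hd (fun ξ => ENNReal.ofReal (‖ext U f ξ‖ ^ p))
  rw [← hA] at havg
  have hsub : ∀ I ∈ powersetCard k J, ∫⁻ ξ in un θ I, ENNReal.ofReal (‖ext U f ξ‖ ^ p) ≤ A :=
    fun I hI => lintegral_mono_set (un_sub θ I J (mem_powersetCard.1 hI).1)
  have hgood : ∀ I ∈ powersetCard k J, opNorm U (un θ I) q p ≤ X →
      ∫⁻ ξ in un θ I, ENNReal.ofReal (‖ext U f ξ‖ ^ p) ≤ X ^ p := by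
    intro I hI h
    have h1 := (le_opNorm U (un θ I) q p f hf.1 hf.2).trans h
    rw [eLp _ p hp0] at h1
    have h2 := ENNReal.rpow_le_rpow h1 hp0.le
    rwa [← ENNReal.rpow_mul, one_div_mul_cancel hp0.ne', ENNReal.rpow_one] at h2
  have hsum : ∑ I ∈ powersetCard k J, ∫⁻ ξ in un θ I, ENNReal.ofReal (‖ext U f ξ‖ ^ p) ≤
      ENNReal.ofReal c * X ^ p + ENNReal.ofReal (t * c) * A := by
    rw [← sum_filter_add_sum_filter_not (powersetCard k J) (fun I => opNorm U (un θ I) q p ≤ X)]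
    refine add_le_add ?_ ?_
    · refine (sum_le_card_nsmul _ _ (X ^ p) fun I hI => ?_).trans ?_
      · exact hgood I (mem_filter.1 hI).1 (mem_filter.1 hI).2
      · rw [nsmul_eq_mul]
        refine mul_le_mul' ?_ le_rfl
        rw [← ENNReal.ofReal_natCast]
        refine ENNReal.ofReal_le_ofReal ?_
        rw [hc]
        have := card_filter_le (powersetCard k J) (fun I => opNorm U (un θ I) q p ≤ X)
        rw [card_powersetCard] at this
        exact_mod_cast this
    · refine (sum_le_card_nsmul _ _ A fun I hI => ?_).trans ?_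
      · exact hsub I (mem_filter.1 hI).1
      · rw [nsmul_eq_mul]
        refine mul_le_mul' ?_ le_rfl
        rw [← ENNReal.ofReal_natCast]
        exact ENNReal.ofReal_le_ofReal hbad
  rw [havg] at hsum
  have e1 : (((J.card - 1).choose (k - 1) : ℕ) : ℝ≥0∞) = ENNReal.ofReal (2 * t * c) := by
    rw [← ENNReal.ofReal_natCast, choose_div J.card k hk hkJ]
    congr 1
    rw [ht, hc]
    field_simp
  rw [e1] at hsum
  have e2 : ENNReal.ofReal (2 * t * c) * A =
      ENNReal.ofReal (t * c) * A + ENNReal.ofReal (t * c) * A := by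
    rw [← add_mul, ← ENNReal.ofReal_add (by positivity) (by positivity)]
    congr 2
    ring
  rw [e2] at hsum
  have h3 : ENNReal.ofReal (t * c) * A ≤ ENNReal.ofReal c * X ^ p :=
    (ENNReal.add_le_add_iff_right (ENNReal.mul_ne_top ENNReal.ofReal_ne_top hAt)).1 hsum
  have h4 : ENNReal.ofReal t * A ≤ X ^ p := by
    have e3 : ENNReal.ofReal (t * c) = ENNReal.ofReal c * ENNReal.ofReal t := by
      rw [← ENNReal.ofReal_mul hc0.le, mul_comm]
    rw [e3, mul_assoc] at h3
    exact (ENNReal.mul_le_mul_iff_right (by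
      rw [Ne, ENNReal.ofReal_eq_zero, not_le]; exact hc0) ENNReal.ofReal_ne_top).1 h3
  have h5 := ENNReal.rpow_le_rpow h4 (show 0 ≤ 1 / p by positivity)
  rw [ENNReal.mul_rpow_of_nonneg _ _ (by positivity), ← ENNReal.rpow_mul,
    mul_one_div_cancel hp0.ne', ENNReal.rpow_one, ENNReal.ofReal_rpow_of_pos ht0] at h5
  rw [eLp _ p hp0]
  exact h5

theorem Phi_norm (x : E 2) (hx : x ∈ Metric.ball (0 : E 2) (1 / 2)) : ‖Phi x‖ ≤ 1 := by
  have h0 : Phi 0 = 0 := by
    ext i
    fin_cases i <;> simp [Phi]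
  have h := Phi_lip x 0
  rw [h0, sub_zero, sub_zero, norm_zero, add_zero] at h
  have h1 : ‖x‖ < 1 / 2 := by simpa using hx
  have h2 := norm_nonneg x
  nlinarith

/-- **The lower bound for regions which contain a ball.** -/
theorem low (U : Set (E 2)) (hU : MeasurableSet U) (hUb : U ⊆ Metric.ball 0 (1 / 2))
    (Y : Set (E 3)) (ξ₀ : E 3) (hY : Metric.ball ξ₀ (1 / 2) ⊆ Y) (q p : ℝ) (hq : 2 ≤ q)
    (hp : 2 ≤ p) :
    ENNReal.ofReal (1 / 2 * min 1 (volume.real (Metric.ball (0 : E 3) (1 / 2)))) *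
      volume U ^ (1 - 1 / q) ≤ opNorm U Y q p := by
  have hq0 : 0 < q := by linarith
  have hp0 : 0 < p := by linarith
  have := U_fin U hUb
  have hq1 : 0 < 1 - 1 / q := by
    have : 1 / q ≤ 1 / 2 := by rw [div_le_div_iff₀ hq0 (by norm_num)]; linarith
    linarith
  have hUt : volume U ≠ ⊤ := ((measure_mono hUb).trans_lt measure_ball_lt_top).ne
  rcases eq_or_ne (volume U) 0 with h0 | h0
  · rw [h0, ENNReal.zero_rpow_of_pos hq1, mul_zero]
    exact zero_le
  set u : ℝ := volume.real U with hu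
  have hu0 : 0 < u := by
    rw [hu, Measure.real]
    exact ENNReal.toReal_pos h0 hUt
  have huv : volume U = ENNReal.ofReal u := by rw [hu, Measure.real, ENNReal.ofReal_toReal hUt]
  set c : ℝ := u ^ (-(1 / q)) with hc
  have hc0 : 0 < c := by positivity
  set f : E 2 → ℂ := fun x => (c : ℂ) * Complex.exp (((⟪Phi x, ξ₀⟫ : ℝ) : ℂ) * Complex.I) with hf
  have hfm : Measurable f := by
    have h1 : Measurable fun x : E 2 => ⟪Phi x, ξ₀⟫ := Phi_meas.inner measurable_const
    exact (Complex.measurable_exp.comp ((Complex.measurable_ofReal.comp h1).mul_const _)).const_mul _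
  have hfn : ∀ x, ‖f x‖ = c := by
    intro x
    rw [hf]
    simp only
    rw [norm_mul, Complex.norm_real, Real.norm_of_nonneg hc0.le, Complex.norm_exp_ofReal_mul_I,
      mul_one]
  have hf1 : eLpNorm f (ENNReal.ofReal q) (volume.restrict U) ≤ 1 := by
    refine (eLpNorm_le_of_ae_bound (C := c) (Filter.Eventually.of_forall fun x =>
      (hfn x).le)).trans (le_of_eq ?_)
    rw [Measure.restrict_apply_univ, ENNReal.toReal_ofReal hq0.le, huv,
      ENNReal.ofReal_rpow_of_pos hu0, ← ENNReal.ofReal_mul (by positivity), hc,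
      ← Real.rpow_add hu0, ← one_div, add_neg_cancel, Real.rpow_zero, ENNReal.ofReal_one]
  refine le_trans ?_ (le_opNorm U Y q p f hfm hf1)
  have hlow : ∀ ξ ∈ Metric.ball ξ₀ (1 / 2), c * u / 2 ≤ ‖ext U f ξ‖ := by
    intro ξ hξ
    have e : ext U f ξ = (c : ℂ) *
        ∫ x in U, Complex.exp (-((⟪Phi x, ξ - ξ₀⟫ : ℝ) : ℂ) * Complex.I) := by
      unfold ext
      rw [← integral_const_mul]
      refine integral_congr_ae (Filter.Eventually.of_forall fun x => ?_)
      simp only [hf]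
      rw [mul_left_comm, ← Complex.exp_add, inner_sub_right]
      congr 2
      push_cast
      ring
    have hξ2 : ‖ξ - ξ₀‖ < 1 / 2 := by rwa [← dist_eq_norm]
    have h1 : ‖(∫ x in U, Complex.exp (-((⟪Phi x, ξ - ξ₀⟫ : ℝ) : ℂ) * Complex.I)) - (u : ℂ)‖ ≤
        u / 2 := by
      have hint : Integrable (fun x => Complex.exp (-((⟪Phi x, ξ - ξ₀⟫ : ℝ) : ℂ) * Complex.I))
          (volume.restrict U) := by
        refine Integrable.mono' (integrable_const (1 : ℝ)) ?_
          (Filter.Eventually.of_forall fun x => (ek_norm _).le)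
        have h1 : Measurable fun x : E 2 => ⟪Phi x, ξ - ξ₀⟫ := Phi_meas.inner measurable_const
        exact (Complex.measurable_exp.comp
          ((Complex.measurable_ofReal.comp h1).neg.mul_const _)).aestronglyMeasurable
      have e2 : (u : ℂ) = ∫ _x in U, (1 : ℂ) := by
        rw [setIntegral_const, hu]
        simp
      rw [e2, ← integral_sub hint (integrable_const _)]
      refine (norm_integral_le_integral_norm _).trans ?_
      have h2 : ∀ᵐ x ∂(volume.restrict U),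
          ‖Complex.exp (-((⟪Phi x, ξ - ξ₀⟫ : ℝ) : ℂ) * Complex.I) - 1‖ ≤ 1 / 2 := by
        filter_upwards [ae_restrict_mem hU] with x hx
        have h3 := ek_close ⟪Phi x, ξ - ξ₀⟫ 0
        rw [Complex.ofReal_zero, neg_zero, zero_mul, Complex.exp_zero, sub_zero] at h3
        refine h3.trans ((abs_real_inner_le_norm _ _).trans ?_)
        have h4 := Phi_norm x (hUb hx)
        nlinarith [norm_nonneg (ξ - ξ₀), norm_nonneg (Phi x)]
      refine (integral_mono_ae (hint.sub (integrable_const _)).norm (integrable_const (1 / 2 : ℝ))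
        h2).trans (le_of_eq ?_)
      rw [setIntegral_const, smul_eq_mul, ← hu]
      ring
    rw [e, norm_mul, Complex.norm_real, Real.norm_of_nonneg hc0.le]
    have h5 : ‖(u : ℂ)‖ = u := by rw [Complex.norm_real, Real.norm_of_nonneg hu0.le]
    have h6 := norm_sub_norm_le (u : ℂ)
      (∫ x in U, Complex.exp (-((⟪Phi x, ξ - ξ₀⟫ : ℝ) : ℂ) * Complex.I))
    rw [norm_sub_rev, h5] at h6
    have h7 : u / 2 ≤ ‖∫ x in U, Complex.exp (-((⟪Phi x, ξ - ξ₀⟫ : ℝ) : ℂ) * Complex.I)‖ := by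
      linarith
    calc c * u / 2 = c * (u / 2) := by ring
      _ ≤ _ := mul_le_mul_of_nonneg_left h7 hc0.le
  have hstep : eLpNorm (fun _ : E 3 => c * u / 2) (ENNReal.ofReal p)
      (volume.restrict (Metric.ball ξ₀ (1 / 2))) ≤
      eLpNorm (ext U f) (ENNReal.ofReal p) (volume.restrict Y) := by
    refine le_trans (eLpNorm_mono_ae ?_) (eLpNorm_mono_measure _ (Measure.restrict_mono hY le_rfl))
    filter_upwards [ae_restrict_mem measurableSet_ball] with ξ hξ
    rw [Real.norm_of_nonneg (by positivity)]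
    exact hlow ξ hξ
  refine le_trans ?_ hstep
  rw [eLpNorm_const' _ (by rw [Ne, ENNReal.ofReal_eq_zero, not_le]; exact hp0)
    ENNReal.ofReal_ne_top, Measure.restrict_apply_univ, ENNReal.toReal_ofReal hp0.le,
    Real.enorm_eq_ofReal (by positivity), Measure.addHaar_ball_center]
  have hbt : volume (Metric.ball (0 : E 3) (1 / 2)) ≠ ⊤ := measure_ball_lt_top.ne
  set v : ℝ := volume.real (Metric.ball (0 : E 3) (1 / 2)) with hv
  have hv0 : 0 ≤ v := measureReal_nonneg
  have hvv : volume (Metric.ball (0 : E 3) (1 / 2)) = ENNReal.ofReal v := by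
    rw [hv, Measure.real, ENNReal.ofReal_toReal hbt]
  rw [hvv, ENNReal.ofReal_rpow_of_nonneg hv0 (by positivity), ← ENNReal.ofReal_mul (by positivity),
    huv, ENNReal.ofReal_rpow_of_pos hu0, ← ENNReal.ofReal_mul (by positivity)]
  refine ENNReal.ofReal_le_ofReal ?_
  have h8 : c * u = u ^ (1 - 1 / q) := by
    rw [hc, ← Real.rpow_add_one hu0.ne']
    congr 1
    ring
  have h9 : min 1 v ≤ v ^ (1 / p) := by
    rcases le_or_gt v 1 with h | h
    · rw [min_eq_right h]
      calc v = v ^ (1 : ℝ) := (Real.rpow_one _).symm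
        _ ≤ v ^ (1 / p) := by
            rcases hv0.eq_or_lt with h1 | h1
            · rw [← h1, Real.zero_rpow one_ne_zero]
              exact Real.rpow_nonneg le_rfl _
            · exact Real.rpow_le_rpow_of_exponent_ge h1 h (by rw [div_le_one hp0]; linarith)
    · rw [min_eq_left h.le]
      exact Real.one_le_rpow h.le (by positivity)
  rw [h8]
  calc 1 / 2 * min 1 v * u ^ (1 - 1 / q) = u ^ (1 - 1 / q) / 2 * min 1 v := by ring
    _ ≤ _ := mul_le_mul_of_nonneg_left h9 (by positivity)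

/-! ### Cubes -/

theorem cube_eq (R : ℕ) (j : Fin 3 → Fin (2 * R)) :
    cube R j = Pool.Agent.N248.RR.uq (fun i => ((j i : ℕ) : ℤ) - R) := by
  ext ξ
  unfold cube Pool.Agent.N248.RR.uq
  simp only [Set.mem_ofPred_eq]
  refine forall_congr' fun i => ?_
  push_cast
  constructor
  · rintro ⟨h1, h2⟩; constructor <;> linarith
  · rintro ⟨h1, h2⟩; constructor <;> linarith

theorem cube_meas (R : ℕ) (j : Fin 3 → Fin (2 * R)) : MeasurableSet (cube R j) := by
  rw [cube_eq]; exact Pool.Agent.N248.RR.uq_meas _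

theorem cube_vol (R : ℕ) (j : Fin 3 → Fin (2 * R)) : volume.real (cube R j) = 1 := by
  rw [cube_eq, Measure.real, Pool.Agent.N248.RR.uq_vol]
  simp

theorem cube_disj (R : ℕ) (j k : Fin 3 → Fin (2 * R)) (h : j ≠ k) :
    Disjoint (cube R j) (cube R k) := by
  rw [cube_eq, cube_eq]
  refine Pool.Agent.N248.RR.uq_disj _ _ fun h2 => h ?_
  ext i
  have := congrFun h2 i
  omega

theorem cube_box (R : ℕ) : un (cube R) Finset.univ = box R := by
  ext ξ
  unfold un box cube
  simp only [Set.mem_iUnion, Finset.mem_univ, Set.mem_ofPred_eq, exists_true_left]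
  constructor
  · rintro ⟨j, hj⟩ i
    obtain ⟨h1, h2⟩ := hj i
    have h3 : (0 : ℝ) ≤ ((j i : ℕ) : ℝ) := Nat.cast_nonneg _
    have h4 : ((j i : ℕ) : ℝ) + 1 ≤ 2 * R := by
      have := (j i).2
      have h5 : (j i : ℕ) + 1 ≤ 2 * R := by omega
      exact_mod_cast h5
    constructor <;> linarith
  · intro h
    have hb : ∀ i, ⌊ξ i + R⌋.toNat < 2 * R := by
      intro i
      obtain ⟨h1, h2⟩ := h i
      have h3 : ⌊ξ i + R⌋ < 2 * (R : ℤ) := by
        rw [Int.floor_lt]
        push_cast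
        linarith
      have h4 : 0 ≤ ⌊ξ i + R⌋ := by
        rw [Int.le_floor]
        push_cast
        linarith
      omega
    refine ⟨fun i => ⟨⌊ξ i + R⌋.toNat, hb i⟩, fun i => ?_⟩
    obtain ⟨h1, h2⟩ := h i
    have h4 : 0 ≤ ⌊ξ i + R⌋ := by
      rw [Int.le_floor]
      push_cast
      linarith
    have h5 : ((⌊ξ i + R⌋.toNat : ℕ) : ℝ) = (⌊ξ i + R⌋ : ℝ) := by
      have : ((⌊ξ i + R⌋.toNat : ℕ) : ℤ) = ⌊ξ i + R⌋ := Int.toNat_of_nonneg h4
      exact_mod_cast congrArg (fun z : ℤ => (z : ℝ)) this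
    rw [h5]
    exact ⟨Int.floor_le _, Int.lt_floor_add_one _⟩

theorem box_ball (R : ℝ) (hR : 0 < R) : box R ⊆ Metric.ball 0 (2 * R) := by
  intro ξ hξ
  rw [mem_ball_zero_iff, EuclideanSpace.norm_eq]
  rw [Real.sqrt_lt' (by positivity)]
  have h1 : ∀ i, ‖ξ i‖ ^ 2 ≤ R ^ 2 := by
    intro i
    obtain ⟨h1, h2⟩ := hξ i
    rw [Real.norm_eq_abs, sq_abs]
    nlinarith
  calc ∑ i, ‖ξ i‖ ^ 2 ≤ ∑ _i : Fin 3, R ^ 2 := Finset.sum_le_sum fun i _ => h1 i
    _ = 3 * R ^ 2 := by simp
    _ < (2 * R) ^ 2 := by nlinarith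

theorem cube_ball (R : ℕ) (hR : 1 ≤ R) (j : Fin 3 → Fin (2 * R)) :
    cube R j ⊆ Metric.ball 0 (2 * (R : ℝ)) := by
  refine subset_trans ?_ (box_ball R (by exact_mod_cast hR))
  rw [← cube_box]
  unfold un
  exact Set.subset_biUnion_of_mem (u := cube R) (Finset.mem_coe.2 (Finset.mem_univ j))

theorem cube_center (R : ℕ) (j : Fin 3 → Fin (2 * R)) :
    Metric.ball (WithLp.toLp 2 fun i => ((j i : ℕ) : ℝ) - R + 1 / 2 : E 3) (1 / 2) ⊆ cube R j := by
  intro ξ hξ i
  rw [Metric.mem_ball, dist_eq_norm] at hξ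
  have h1 : ‖(ξ - (WithLp.toLp 2 fun i => ((j i : ℕ) : ℝ) - R + 1 / 2 : E 3)) i‖ < 1 / 2 :=
    (PiLp.norm_apply_le _ i).trans_lt hξ
  rw [Real.norm_eq_abs, abs_lt] at h1
  simp only [PiLp.sub_apply] at h1
  constructor <;> linarith [h1.1, h1.2]

theorem card_cubes (R : ℕ) :
    (Finset.univ : Finset (Fin 3 → Fin (2 * R))).card = (2 * R) ^ 3 := by
  rw [Finset.card_univ, Fintype.card_fun, Fintype.card_fin, Fintype.card_fin]

end Pool.Agent.J6H90.RG
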