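import Mathlib

set_option autoImplicit false

/-!
# Random regions and the extension operator of the paraboloid: definitions
-/

namespace Pool.Agent.J6H90.RG

open MeasureTheory Set Metric Complex
open scoped ENNReal NNReal RealInnerProductSpace

abbrev E (n : ℕ) := EuclideanSpace ℝ (Fin n)

/-- the paraboloid `x ↦ (x_1, x_2, x_1^2 + x_2^2)` -/
noncomputable def Phi (x : E 2) : E 3 := !₂[x 0, x 1, x 0 ^ 2 + x 1 ^ 2]

/-- the Fourier extension operator of the paraboloid over `U` -/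
noncomputable def ext (U : Set (E 2)) (f : E 2 → ℂ) (ξ : E 3) : ℂ :=
  ∫ x in U, Complex.exp (-((⟪Phi x, ξ⟫ : ℝ) : ℂ) * I) * f x

/-- The norm of `ext U` from `L^q(U)` to `L^p(Y)`: the supremum of `‖ext U f‖_{L^p(Y)}` over the
measurable functions `f` with `‖f‖_{L^q(U)} ≤ 1`. -/
noncomputable def opNorm (U : Set (E 2)) (Y : Set (E 3)) (q p : ℝ) : ℝ≥0∞ :=
  ⨆ (f : E 2 → ℂ)
    (_ : Measurable f ∧ eLpNorm f (ENNReal.ofReal q) (volume.restrict U) ≤ 1),
    eLpNorm (ext U f) (ENNReal.ofReal p) (volume.restrict Y)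

/-- the half-open box `[-R, R)^3` -/
def box (R : ℝ) : Set (E 3) := {ξ | ∀ i, -R ≤ ξ i ∧ ξ i < R}

/-- The unit cube with index `j`. The `(2R)^3` cubes tile the box `[-R, R)^3`. -/
def cube (R : ℕ) (j : Fin 3 → Fin (2 * R)) : Set (E 3) :=
  {ξ | ∀ i, ((j i : ℕ) : ℝ) ≤ ξ i + R ∧ ξ i + R < (j i : ℕ) + 1}

end Pool.Agent.J6H90.RG
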