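import Pool.Agent.J6H90.RG.Full

set_option autoImplicit false
set_option linter.unusedSectionVars false

/-!
# Random regions: equivalences
-/

namespace Pool.Agent.J6H90.RG

open Finset MeasureTheory
open Pool.Agent.N248.RC
open scoped RealInnerProductSpace ENNReal

open Classical in
/-- typical sets of cubes -/
theorem cubes_samp (A : ℝ) (hA : 0 ≤ A) : ∃ C : ℝ, 0 ≤ C ∧ ∀ R : ℕ, 2 ≤ R → ∀ k : ℕ, 1 ≤ k →
    k ≤ (2 * R) ^ 3 →
    (((powersetCard k (Finset.univ : Finset (Fin 3 → Fin (2 * R)))).filter (fun I =>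
      ¬ Samp C (2 * R) 1 (((2 * R) ^ 3 : ℕ) : ℝ) k (box R) (un (cube R) I))).card : ℝ) ≤
      (R : ℝ) ^ (-A) * ((((2 * R) ^ 3).choose k : ℕ) : ℝ) := by
  obtain ⟨C, hC0, hC⟩ := typical A 3 hA (by norm_num)
  refine ⟨C, hC0, fun R hR k hk hkN => ?_⟩
  have hR2 : (2 : ℝ) ≤ R := by exact_mod_cast hR
  have h := hC (2 * R) (by linarith) 1 one_pos (Fin 3 → Fin (2 * R)) Finset.univ k (cube R) hk
    (by rw [card_cubes]; exact hkN) (by
      rw [card_cubes]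
      push_cast
      rw [← Real.rpow_natCast]
      exact Real.rpow_le_rpow_of_exponent_le (by linarith) (by norm_num))
    (fun j _ => cube_meas R j) (fun j _ => cube_ball R (by omega) j)
    (fun i _ j _ hij => cube_disj R i j hij) (fun j _ => (cube_vol R j).le)
  rw [card_cubes, cube_box] at h
  refine le_trans (le_of_eq ?_) (h.trans ?_)
  · congr!
  · refine mul_le_mul_of_nonneg_right ?_ (Nat.cast_nonneg _)
    exact Real.rpow_le_rpow_of_nonpos (by linarith) (by linarith) (by linarith)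

theorem U_one (U : Set (E 2)) (hUb : U ⊆ Metric.ball 0 (1 / 2)) (a : ℝ) (ha : 0 ≤ a) :
    volume U ^ a ≤ 1 := by
  have h : volume U ≤ 1 := by
    refine (measure_mono hUb).trans ?_
    rw [EuclideanSpace.volume_ball_fin_two, ← ENNReal.ofReal_pow (by norm_num),
      ← ENNReal.ofReal_mul (by norm_num), ← ENNReal.ofReal_one]
    refine ENNReal.ofReal_le_ofReal ?_
    have := Real.pi_le_four
    norm_num
    linarith
  calc volume U ^ a ≤ 1 ^ a := ENNReal.rpow_le_rpow h ha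
    _ = 1 := ENNReal.one_rpow _

theorem box_meas (R : ℕ) : MeasurableSet (box R) := by
  rw [← cube_box]
  exact un_meas _ _ fun j _ => cube_meas R j

theorem cubes_sub (R : ℕ) (I : Finset (Fin 3 → Fin (2 * R))) : un (cube R) I ⊆ box R := by
  rw [← cube_box]
  exact un_sub _ _ _ (subset_univ I)

/-- **The norm on typical sets of cubes.** -/
theorem cubes_op (C : ℝ) (hC : 0 ≤ C) (R : ℕ) (hR : 2 ≤ R) (k : ℕ) (hk : 1 ≤ k)
    (hkN : k ≤ (2 * R) ^ 3) (I : Finset (Fin 3 → Fin (2 * R))) (hI : I.card = k)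
    (h : Samp C (2 * R) 1 (((2 * R) ^ 3 : ℕ) : ℝ) k (box R) (un (cube R) I))
    (U : Set (E 2)) (hU : MeasurableSet U) (hUb : U ⊆ Metric.ball 0 (1 / 2)) (q p : ℝ)
    (hq : 1 ≤ q) (hp : 2 ≤ p) :
    opNorm U (un (cube R) I) q p ≤
      ENNReal.ofReal (8 * (k / (R : ℝ) ^ 3) ^ (1 / p)) * opNorm U (box R) q p +
        ENNReal.ofReal (12 * (24 + 3 * C) * Real.log R ^ 2) * volume U ^ (1 - 1 / q) := by
  have hR2 : (2 : ℝ) ≤ R := by exact_mod_cast hR
  have hR0 : (0 : ℝ) < R := by linarith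
  have hp0 : 0 < p := by linarith
  have hN : (0 : ℝ) < (((2 * R) ^ 3 : ℕ) : ℝ) := by push_cast; positivity
  have h1 := op_of_samp C 3 (2 * R) 1 (((2 * R) ^ 3 : ℕ) : ℝ) k hC (by norm_num) (by linarith)
    one_pos hN hk (by
      calc (k : ℝ) ≤ (((2 * R) ^ 3 : ℕ) : ℝ) := by exact_mod_cast hkN
        _ = (2 * (R : ℝ)) ^ (3 : ℝ) := by
            push_cast
            rw [← Real.rpow_natCast]
            norm_num) (box R) (un (cube R) I) (un_meas _ _ fun j _ => cube_meas R j) (box_meas R)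
    (box_ball R hR0) (cubes_sub R I) (by
      have := un_vol (cube R) I 1 (fun i _ => (cube_vol R i).le)
      rw [hI] at this
      exact this) h U hU hUb q p hq hp
  refine h1.trans (add_le_add (mul_le_mul' (ENNReal.ofReal_le_ofReal ?_) le_rfl)
    (mul_le_mul' (ENNReal.ofReal_le_ofReal ?_) le_rfl))
  · refine mul_le_mul_of_nonneg_left ?_ (by norm_num)
    refine Real.rpow_le_rpow (by positivity) ?_ (by positivity)
    refine div_le_div_of_nonneg_left (Nat.cast_nonneg k) (by positivity) ?_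
    push_cast
    exact pow_le_pow_left₀ hR0.le (by linarith) 3
  · rw [Real.one_rpow, mul_one]
    have h9 : Real.log (2 * (R : ℝ)) ≤ 2 * Real.log R := by
      rw [Real.log_mul (by norm_num) hR0.ne']
      have := Real.log_le_log (by norm_num) hR2
      linarith
    have h9' : 0 ≤ Real.log (2 * (R : ℝ)) := Real.log_nonneg (by linarith)
    have h10 : Real.log (2 * (R : ℝ)) ^ 2 ≤ 4 * Real.log R ^ 2 := by
      calc Real.log (2 * (R : ℝ)) ^ 2 ≤ (2 * Real.log R) ^ 2 := pow_le_pow_left₀ h9' h9 2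
        _ = _ := by ring
    calc 3 * (24 + C * 3) * Real.log (2 * (R : ℝ)) ^ 2 ≤
        3 * (24 + C * 3) * (4 * Real.log R ^ 2) := mul_le_mul_of_nonneg_left h10 (by positivity)
      _ = _ := by ring

/-- logarithms are small -/
theorem log_small (ε : ℝ) (hε : 0 < ε) (R : ℝ) (hR : 1 ≤ R) :
    Real.log R ^ 2 ≤ 4 / ε ^ 2 * R ^ ε := by
  have h := Real.log_le_rpow_div (x := R) (by linarith) (show 0 < ε / 2 by positivity)
  have h0 := Real.log_nonneg hR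
  calc Real.log R ^ 2 ≤ (R ^ (ε / 2) / (ε / 2)) ^ 2 := pow_le_pow_left₀ h0 h 2
    _ = 4 / ε ^ 2 * R ^ ε := by
        rw [div_pow, ← Real.rpow_natCast (R ^ (ε / 2)) 2, ← Real.rpow_mul (by linarith)]
        have : ε / 2 * ((2 : ℕ) : ℝ) = ε := by push_cast; ring
        rw [this]
        field_simp
        ring

open Classical in
/-- from the box to typical sets of cubes -/
theorem fwd (U : Set (E 2)) (hU : MeasurableSet U) (hUb : U ⊆ Metric.ball 0 (1 / 2)) (q : ℝ)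
    (hq : 2 ≤ q) (τ a : ℝ) (hτ : 0 ≤ τ) (hτ3 : τ ≤ 3) (ha : τ / q ≤ a)
    (h : ∀ ε : ℝ, 0 < ε → ∃ C : ℝ, ∀ R : ℕ, 2 ≤ R →
      opNorm U (box R) q q ≤ ENNReal.ofReal (C * (R : ℝ) ^ (a + ε))) :
    ∀ ε : ℝ, 0 < ε → ∀ A : ℝ, 0 ≤ A → ∃ C : ℝ, ∀ R : ℕ, 2 ≤ R →
      (((powersetCard (nc 3 τ R) (Finset.univ : Finset (Fin 3 → Fin (2 * R)))).filter (fun I =>
        ¬ opNorm U (un (cube R) I) q q ≤
          ENNReal.ofReal (C * (R : ℝ) ^ (a - τ / q + ε)))).card : ℝ) ≤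
      (R : ℝ) ^ (-A) * ((((2 * R) ^ 3).choose (nc 3 τ R) : ℕ) : ℝ) := by
  intro ε hε A hA
  obtain ⟨K, hK⟩ := h (ε / 2) (by positivity)
  obtain ⟨C, hC0, hC⟩ := cubes_samp A hA
  have hq0 : 0 < q := by linarith
  refine ⟨16 * |K| + 12 * (24 + 3 * C) * (4 / ε ^ 2), fun R hR => ?_⟩
  have hR2 : (2 : ℝ) ≤ R := by exact_mod_cast hR
  have hR0 : (0 : ℝ) < R := by linarith
  obtain ⟨hk1, hkN, hkl, hku⟩ := nc_facts (n := 3) τ hτ (by exact_mod_cast hτ3) R (by omega)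
  refine le_trans (Nat.cast_le.2 (Finset.card_le_card ?_)) (hC R hR (nc 3 τ R) hk1 hkN)
  intro I hI
  rw [Finset.mem_filter] at hI ⊢
  refine ⟨hI.1, fun hs => hI.2 ?_⟩
  have h1 := cubes_op C hC0 R hR (nc 3 τ R) hk1 hkN I (mem_powersetCard.1 hI.1).2 hs U hU hUb q q
    (by linarith) hq
  have h2 : volume U ^ (1 - 1 / q) ≤ 1 := by
    refine U_one U hUb _ ?_
    have : 1 / q ≤ 1 := by rw [div_le_one hq0]; linarith
    linarith
  have h3 : ((nc 3 τ R : ℕ) / (R : ℝ) ^ 3) ^ (1 / q) ≤ 2 ^ (1 / q) * (R : ℝ) ^ (-(τ / q)) := by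
    have e : (nc 3 τ R : ℕ) / (R : ℝ) ^ 3 ≤ 2 * (R : ℝ) ^ (-τ) := by
      rw [div_le_iff₀ (by positivity)]
      refine hku.trans (le_of_eq ?_)
      rw [mul_assoc, ← Real.rpow_natCast (R : ℝ) 3, ← Real.rpow_add hR0]
      congr 2
      push_cast
      ring
    refine (Real.rpow_le_rpow (by positivity) e (by positivity)).trans (le_of_eq ?_)
    rw [Real.mul_rpow (by norm_num) (by positivity), ← Real.rpow_mul hR0.le]
    congr 2
    ring
  have h4 : (2 : ℝ) ^ (1 / q) ≤ 2 := by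
    calc (2 : ℝ) ^ (1 / q) ≤ 2 ^ (1 : ℝ) :=
          Real.rpow_le_rpow_of_exponent_le (by norm_num) (by rw [div_le_one hq0]; linarith)
      _ = 2 := Real.rpow_one _
  have hK' : opNorm U (box R) q q ≤ ENNReal.ofReal (|K| * (R : ℝ) ^ (a + ε / 2)) :=
    (hK R hR).trans (ENNReal.ofReal_le_ofReal
      (mul_le_mul_of_nonneg_right (le_abs_self K) (by positivity)))
  refine (h1.trans (add_le_add (mul_le_mul' le_rfl hK') (mul_le_mul' le_rfl h2))).trans ?_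
  rw [mul_one, ← ENNReal.ofReal_mul (by positivity),
    ← ENNReal.ofReal_add (by positivity) (by positivity)]
  refine ENNReal.ofReal_le_ofReal ?_
  have hR1 : (1 : ℝ) ≤ R := by linarith
  have hK0 : 0 ≤ |K| := abs_nonneg K
  have h5 : 8 * ((nc 3 τ R : ℕ) / (R : ℝ) ^ 3) ^ (1 / q) * (|K| * (R : ℝ) ^ (a + ε / 2)) ≤
      16 * |K| * (R : ℝ) ^ (a - τ / q + ε) := by
    have h6 : ((nc 3 τ R : ℕ) / (R : ℝ) ^ 3) ^ (1 / q) ≤ 2 * (R : ℝ) ^ (-(τ / q)) :=
      h3.trans (mul_le_mul_of_nonneg_right h4 (by positivity))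
    calc 8 * ((nc 3 τ R : ℕ) / (R : ℝ) ^ 3) ^ (1 / q) * (|K| * (R : ℝ) ^ (a + ε / 2)) ≤
          8 * (2 * (R : ℝ) ^ (-(τ / q))) * (|K| * (R : ℝ) ^ (a + ε / 2)) :=
          mul_le_mul_of_nonneg_right (mul_le_mul_of_nonneg_left h6 (by norm_num)) (by positivity)
      _ = 16 * |K| * ((R : ℝ) ^ (-(τ / q)) * (R : ℝ) ^ (a + ε / 2)) := by ring
      _ = 16 * |K| * (R : ℝ) ^ (a - τ / q + ε / 2) := by
          rw [← Real.rpow_add hR0]
          congr 2
          ring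
      _ ≤ _ := mul_le_mul_of_nonneg_left
          (Real.rpow_le_rpow_of_exponent_le hR1 (by linarith)) (by positivity)
  have h7 : 12 * (24 + 3 * C) * Real.log R ^ 2 ≤
      12 * (24 + 3 * C) * (4 / ε ^ 2) * (R : ℝ) ^ (a - τ / q + ε) := by
    calc 12 * (24 + 3 * C) * Real.log R ^ 2 ≤ 12 * (24 + 3 * C) * (4 / ε ^ 2 * (R : ℝ) ^ ε) :=
          mul_le_mul_of_nonneg_left (log_small ε hε R hR1) (by positivity)
      _ ≤ 12 * (24 + 3 * C) * (4 / ε ^ 2 * (R : ℝ) ^ (a - τ / q + ε)) := by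
          refine mul_le_mul_of_nonneg_left (mul_le_mul_of_nonneg_left
            (Real.rpow_le_rpow_of_exponent_le hR1 (by linarith)) (by positivity)) (by positivity)
      _ = _ := by ring
  calc _ ≤ 16 * |K| * (R : ℝ) ^ (a - τ / q + ε) +
        12 * (24 + 3 * C) * (4 / ε ^ 2) * (R : ℝ) ^ (a - τ / q + ε) := add_le_add h5 h7
    _ = _ := by ring

open Classical in
/-- from typical sets of cubes to the box -/
theorem bwd (U : Set (E 2)) (q : ℝ) (hq : 2 ≤ q) (τ a : ℝ) (hτ : 0 ≤ τ) (hτ3 : τ ≤ 3)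
    (ε C : ℝ) (R : ℕ) (hR : 2 ≤ R)
    (h : (((powersetCard (nc 3 τ R) (Finset.univ : Finset (Fin 3 → Fin (2 * R)))).filter (fun I =>
        ¬ opNorm U (un (cube R) I) q q ≤
          ENNReal.ofReal (C * (R : ℝ) ^ (a - τ / q + ε)))).card : ℝ) ≤
      (R : ℝ) ^ (-7 : ℝ) * ((((2 * R) ^ 3).choose (nc 3 τ R) : ℕ) : ℝ)) :
    opNorm U (box R) q q ≤ ENNReal.ofReal (4 * |C| * (R : ℝ) ^ (a + ε)) := by
  have hq0 : 0 < q := by linarith
  have hR2 : (2 : ℝ) ≤ R := by exact_mod_cast hR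
  have hR0 : (0 : ℝ) < R := by linarith
  obtain ⟨hk1, hkN, hkl, hku⟩ := nc_facts (n := 3) τ hτ (by exact_mod_cast hτ3) R (by omega)
  have hN : ((Finset.univ : Finset (Fin 3 → Fin (2 * R))).card : ℝ) = 8 * (R : ℝ) ^ 3 := by
    rw [card_cubes]; push_cast; ring
  have hk1' : (1 : ℝ) ≤ (nc 3 τ R : ℕ) := by exact_mod_cast hk1
  have h7 : (R : ℝ) ^ (-7 : ℝ) ≤ ((nc 3 τ R : ℕ) : ℝ) /
      (2 * (Finset.univ : Finset (Fin 3 → Fin (2 * R))).card) := by
    rw [hN, le_div_iff₀ (by positivity)]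
    have e : (R : ℝ) ^ (-7 : ℝ) * (R : ℝ) ^ 7 = 1 := by
      rw [← Real.rpow_natCast (R : ℝ) 7, ← Real.rpow_add hR0]
      norm_num
    have e2 : (16 : ℝ) * (R : ℝ) ^ 3 ≤ (R : ℝ) ^ 7 := by
      have : (16 : ℝ) ≤ (R : ℝ) ^ 4 := by
        calc (16 : ℝ) = 2 ^ 4 := by norm_num
          _ ≤ (R : ℝ) ^ 4 := pow_le_pow_left₀ (by norm_num) hR2 4
      calc (16 : ℝ) * (R : ℝ) ^ 3 ≤ (R : ℝ) ^ 4 * (R : ℝ) ^ 3 :=
            mul_le_mul_of_nonneg_right this (by positivity)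
        _ = _ := by ring
    calc (R : ℝ) ^ (-7 : ℝ) * (2 * (8 * (R : ℝ) ^ 3)) = (R : ℝ) ^ (-7 : ℝ) * (16 * (R : ℝ) ^ 3) := by
          ring
      _ ≤ (R : ℝ) ^ (-7 : ℝ) * (R : ℝ) ^ 7 := mul_le_mul_of_nonneg_left e2 (by positivity)
      _ = 1 := e
      _ ≤ _ := hk1'
  have hc := conv (Finset.univ : Finset (Fin 3 → Fin (2 * R))) (nc 3 τ R) hk1
    (by rw [card_cubes]; exact hkN) (cube R) (fun j _ => cube_meas R j)
    (fun i _ j _ hij => cube_disj R i j hij) (by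
      rw [cube_box]
      exact ((measure_mono (box_ball R hR0)).trans_lt measure_ball_lt_top).ne) U q q
    (by linarith) (ENNReal.ofReal (C * (R : ℝ) ^ (a - τ / q + ε))) (by
      rw [card_cubes]
      refine h.trans (mul_le_mul_of_nonneg_right ?_ (Nat.cast_nonneg _))
      rw [card_cubes] at h7
      exact h7)
  rw [cube_box, hN] at hc
  have h8 : 1 / 4 * (R : ℝ) ^ (-(τ / q)) ≤
      (((nc 3 τ R : ℕ) : ℝ) / (2 * (8 * (R : ℝ) ^ 3))) ^ (1 / q) := by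
    have e : (R : ℝ) ^ (-τ) / 16 ≤ ((nc 3 τ R : ℕ) : ℝ) / (2 * (8 * (R : ℝ) ^ 3)) := by
      rw [div_le_div_iff₀ (by norm_num) (by positivity)]
      have : (R : ℝ) ^ (-τ) * (R : ℝ) ^ 3 = (R : ℝ) ^ (((3 : ℕ) : ℝ) - τ) := by
        rw [← Real.rpow_natCast (R : ℝ) 3, ← Real.rpow_add hR0]
        congr 1
        ring
      calc (R : ℝ) ^ (-τ) * (2 * (8 * (R : ℝ) ^ 3)) = (R : ℝ) ^ (-τ) * (R : ℝ) ^ 3 * 16 := by ring
        _ = (R : ℝ) ^ (((3 : ℕ) : ℝ) - τ) * 16 := by rw [this]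
        _ ≤ _ := mul_le_mul_of_nonneg_right hkl (by norm_num)
    refine le_trans ?_ (Real.rpow_le_rpow (by positivity) e (by positivity))
    rw [Real.div_rpow (by positivity) (by norm_num), ← Real.rpow_mul hR0.le]
    have e2 : (16 : ℝ) ^ (1 / q) ≤ 4 := by
      calc (16 : ℝ) ^ (1 / q) ≤ 16 ^ (1 / 2 : ℝ) :=
            Real.rpow_le_rpow_of_exponent_le (by norm_num)
              (by rw [div_le_div_iff₀ hq0 (by norm_num)]; linarith)
        _ = 4 := by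
            rw [← Real.sqrt_eq_rpow, show (16 : ℝ) = 4 ^ 2 by norm_num, Real.sqrt_sq (by norm_num)]
    have e3 : -τ * (1 / q) = -(τ / q) := by ring
    rw [e3]
    have e5 : 1 / 4 ≤ 1 / (16 : ℝ) ^ (1 / q) := one_div_le_one_div_of_le (by positivity) e2
    calc 1 / 4 * (R : ℝ) ^ (-(τ / q)) ≤ 1 / (16 : ℝ) ^ (1 / q) * (R : ℝ) ^ (-(τ / q)) :=
          mul_le_mul_of_nonneg_right e5 (by positivity)
      _ = _ := by ring
  have h9 : ENNReal.ofReal (1 / 4 * (R : ℝ) ^ (-(τ / q))) * opNorm U (box R) q q ≤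
      ENNReal.ofReal (|C| * (R : ℝ) ^ (a - τ / q + ε)) :=
    (mul_le_mul' (ENNReal.ofReal_le_ofReal h8) le_rfl).trans (hc.trans
      (ENNReal.ofReal_le_ofReal (mul_le_mul_of_nonneg_right (le_abs_self C) (by positivity))))
  have hpos : 0 < 1 / 4 * (R : ℝ) ^ (-(τ / q)) := by positivity
  rw [← ENNReal.mul_le_mul_iff_right (show ENNReal.ofReal (1 / 4 * (R : ℝ) ^ (-(τ / q))) ≠ 0 by
    rw [Ne, ENNReal.ofReal_eq_zero, not_le]; exact hpos) ENNReal.ofReal_ne_top]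
  refine h9.trans (le_of_eq ?_)
  rw [← ENNReal.ofReal_mul hpos.le]
  congr 1
  have e4 : (R : ℝ) ^ (a - τ / q + ε) = (R : ℝ) ^ (-(τ / q)) * (R : ℝ) ^ (a + ε) := by
    rw [← Real.rpow_add hR0]
    congr 1
    ring
  rw [e4]
  ring

end Pool.Agent.J6H90.RG
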