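import Pool.Agent.J6H90.RG.Eqv

set_option autoImplicit false
set_option linter.unusedSectionVars false

/-!
# Random regions: unconditional bounds, caps and cubes
-/

namespace Pool.Agent.J6H90.RG

open Finset MeasureTheory
open Pool.Agent.N248.RC
open scoped RealInnerProductSpace ENNReal

open Classical in
/-- **Unconditional bounds on typical sets of cubes**, for all `U` and `q` at the same time. -/
theorem uncond (A : ℝ) (hA : 0 ≤ A) : ∃ C : ℝ, 0 ≤ C ∧ ∀ R : ℕ, 2 ≤ R → ∀ k : ℕ, 1 ≤ k →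
    k ≤ (2 * R) ^ 3 →
    (((powersetCard k (Finset.univ : Finset (Fin 3 → Fin (2 * R)))).filter (fun I =>
      ¬ ∀ U : Set (E 2), MeasurableSet U → U ⊆ Metric.ball 0 (1 / 2) → ∀ q : ℝ, 2 ≤ q → q ≤ 4 →
        opNorm U (un (cube R) I) q q ≤ ENNReal.ofReal (C * Real.log R ^ 4 *
          ((k / (R : ℝ) ^ 3) ^ (1 / q) * (R : ℝ) ^ (2 / q - 1 / 2) + 1)))).card : ℝ) ≤
      (R : ℝ) ^ (-A) * ((((2 * R) ^ 3).choose k : ℕ) : ℝ) := by
  obtain ⟨C, hC0, hC⟩ := cubes_samp A hA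
  obtain ⟨K, hK0, hK⟩ := full
  refine ⟨8 * K + 48 * (24 + 3 * C), by positivity, fun R hR k hk hkN => ?_⟩
  have hR2 : (2 : ℝ) ≤ R := by exact_mod_cast hR
  have hR0 : (0 : ℝ) < R := by linarith
  have hℓ := log_half (R : ℝ) hR2
  refine le_trans (Nat.cast_le.2 (Finset.card_le_card ?_)) (hC R hR k hk hkN)
  intro I hI
  rw [Finset.mem_filter] at hI ⊢
  refine ⟨hI.1, fun hs => hI.2 fun U hU hUb q hq hq4 => ?_⟩
  have hq0 : 0 < q := by linarith
  have h1 := cubes_op C hC0 R hR k hk hkN I (mem_powersetCard.1 hI.1).2 hs U hU hUb q q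
    (by linarith) hq
  have h2 : volume U ^ (1 - 1 / q) ≤ 1 := by
    refine U_one U hUb _ ?_
    have : 1 / q ≤ 1 := by rw [div_le_one hq0]; linarith
    linarith
  refine (h1.trans (add_le_add (mul_le_mul' le_rfl (hK U hU hUb R hR q hq hq4))
    (mul_le_mul' le_rfl h2))).trans ?_
  rw [mul_one, ← ENNReal.ofReal_mul (by positivity),
    ← ENNReal.ofReal_add (by positivity) (by positivity)]
  refine ENNReal.ofReal_le_ofReal ?_
  have h3 : Real.log R ^ 2 ≤ 4 * Real.log R ^ 4 := by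
    have h4 : (1 / 2 : ℝ) ^ 2 ≤ Real.log R ^ 2 := pow_le_pow_left₀ (by norm_num) hℓ 2
    have h5 : 0 ≤ Real.log R ^ 2 := by positivity
    calc Real.log R ^ 2 = 4 * (Real.log R ^ 2 * (1 / 2) ^ 2) := by ring
      _ ≤ 4 * (Real.log R ^ 2 * Real.log R ^ 2) := by
          refine mul_le_mul_of_nonneg_left (mul_le_mul_of_nonneg_left h4 h5) (by norm_num)
      _ = _ := by ring
  obtain ⟨x, hx⟩ : ∃ x : ℝ, x = (k / (R : ℝ) ^ 3) ^ (1 / q) * (R : ℝ) ^ (2 / q - 1 / 2) := ⟨_, rfl⟩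
  have hx0 : 0 ≤ x := by rw [hx]; positivity
  rw [← hx]
  have e : 8 * (k / (R : ℝ) ^ 3) ^ (1 / q) * (K * Real.log R ^ 4 * (R : ℝ) ^ (2 / q - 1 / 2)) =
      8 * K * Real.log R ^ 4 * x := by rw [hx]; ring
  rw [e]
  have h6 : 12 * (24 + 3 * C) * Real.log R ^ 2 ≤ 12 * (24 + 3 * C) * (4 * Real.log R ^ 4) :=
    mul_le_mul_of_nonneg_left h3 (by positivity)
  have h7 : 0 ≤ K * Real.log R ^ 4 := by positivity
  have h8 : 0 ≤ (24 + 3 * C) * Real.log R ^ 4 * x := by positivity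
  nlinarith

/-- the arithmetic of the critical number of cubes -/
theorem crit (R k q : ℝ) (hR : 0 < R) (hk : 0 ≤ k) (hq : 0 < q) (h : k ≤ R ^ (1 + q / 2)) :
    (k / R ^ 3) ^ (1 / q) * R ^ (2 / q - 1 / 2) ≤ 1 := by
  have h1 : k / R ^ 3 ≤ R ^ (q / 2 - 2) := by
    rw [div_le_iff₀ (by positivity), ← Real.rpow_natCast R 3, ← Real.rpow_add hR]
    refine h.trans (le_of_eq ?_)
    congr 1
    push_cast
    ring
  calc (k / R ^ 3) ^ (1 / q) * R ^ (2 / q - 1 / 2) ≤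
      (R ^ (q / 2 - 2)) ^ (1 / q) * R ^ (2 / q - 1 / 2) :=
        mul_le_mul_of_nonneg_right (Real.rpow_le_rpow (by positivity) h1 (by positivity))
          (by positivity)
    _ = 1 := by
        rw [← Real.rpow_mul hR.le, ← Real.rpow_add hR]
        have : (q / 2 - 2) * (1 / q) + (2 / q - 1 / 2) = 0 := by field_simp; ring
        rw [this, Real.rpow_zero]

open Classical in
/-- **The extension conjecture and typical sets of cubes.** -/
theorem conj_iff (U : Set (E 2)) (hU : MeasurableSet U) (hUb : U ⊆ Metric.ball 0 (1 / 2)) (q : ℝ)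
    (hq : 2 ≤ q) :
    (∀ ε : ℝ, 0 < ε → ∃ C : ℝ, ∀ R : ℕ, 2 ≤ R →
      opNorm U (box R) q q ≤ ENNReal.ofReal (C * (R : ℝ) ^ ε)) ↔
    ∀ τ : ℝ, 0 < τ → τ ≤ 3 → ∀ ε : ℝ, 0 < ε → ∀ A : ℝ, 0 ≤ A → ∃ C : ℝ, ∀ R : ℕ, 2 ≤ R →
      (((powersetCard (nc 3 τ R) (Finset.univ : Finset (Fin 3 → Fin (2 * R)))).filter (fun I =>
        ¬ opNorm U (un (cube R) I) q q ≤ ENNReal.ofReal (C * (R : ℝ) ^ ε))).card : ℝ) ≤
      (R : ℝ) ^ (-A) * ((((2 * R) ^ 3).choose (nc 3 τ R) : ℕ) : ℝ) := by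
  have hq0 : 0 < q := by linarith
  constructor
  · intro h τ _ _ ε hε A _
    obtain ⟨C, hC⟩ := h ε hε
    refine ⟨C, fun R hR => ?_⟩
    have : ((powersetCard (nc 3 τ R) (Finset.univ : Finset (Fin 3 → Fin (2 * R)))).filter (fun I =>
        ¬ opNorm U (un (cube R) I) q q ≤ ENNReal.ofReal (C * (R : ℝ) ^ ε))) = ∅ := by
      rw [Finset.filter_eq_empty_iff]
      intro I _
      rw [not_not]
      exact (opNorm_mono U _ _ (cubes_sub R I) q q).trans (hC R hR)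
    rw [this, card_empty, Nat.cast_zero]
    positivity
  · intro h ε hε
    set τ : ℝ := min 3 (q * (ε / 2)) with hτ
    have hτ0 : 0 < τ := lt_min (by norm_num) (by positivity)
    have hτ3 : τ ≤ 3 := min_le_left _ _
    have hτq : τ / q ≤ ε / 2 := by
      rw [div_le_iff₀ hq0]
      calc τ ≤ q * (ε / 2) := min_le_right _ _
        _ = _ := by ring
    obtain ⟨C, hC⟩ := h τ hτ0 hτ3 (ε / 2) (by positivity) 7 (by norm_num)
    refine ⟨4 * |C|, fun R hR => ?_⟩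
    have hR1 : (1 : ℝ) ≤ R := by exact_mod_cast (by omega : 1 ≤ R)
    have h1 := bwd U q hq τ (τ / q) hτ0.le hτ3 (ε / 2) C R hR (by
      rw [sub_self, zero_add]
      exact hC R hR)
    refine h1.trans (ENNReal.ofReal_le_ofReal ?_)
    exact mul_le_mul_of_nonneg_left (Real.rpow_le_rpow_of_exponent_le hR1 (by linarith))
      (by positivity)

/-! ### Caps and cubes -/

theorem vol_caps (R : ℕ) (hR : 2 ≤ R) (I : Finset (Fin 2 → Fin (2 * (2 * R)))) (U : Set (E 2)) :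
    volume (U ∩ un (cell (n := 2) (2 * R)) I) ≤ ENNReal.ofReal (I.card / (R : ℝ) ^ 2) := by
  have hR2 : (2 : ℝ) ≤ R := by exact_mod_cast hR
  have hR0 : (0 : ℝ) < R := by linarith
  refine (measure_mono Set.inter_subset_right).trans ?_
  unfold un
  refine (measure_biUnion_finset_le I _).trans ?_
  rw [Finset.sum_congr rfl fun j _ => cell_vol (n := 2) (2 * R) (by omega) j, Finset.sum_const,
    nsmul_eq_mul, ← ENNReal.ofReal_natCast, ← ENNReal.ofReal_mul (Nat.cast_nonneg _)]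
  refine ENNReal.ofReal_le_ofReal ?_
  rw [div_eq_mul_inv]
  refine mul_le_mul_of_nonneg_left ?_ (Nat.cast_nonneg _)
  rw [← inv_pow]
  refine pow_le_pow_left₀ (by positivity) ?_ 2
  refine inv_anti₀ hR0 ?_
  push_cast
  linarith

open Pool.Agent.N248.LC in
open Classical in
/-- **Caps and cubes.** -/
theorem joint (A : ℝ) (hA : 0 ≤ A) : ∃ C : ℝ, 0 ≤ C ∧ ∀ U : Set (E 2), MeasurableSet U →
    U ⊆ Metric.ball 0 (1 / 2) → ∀ R k l : ℕ, 2 ≤ R → 1 ≤ k → k ≤ (2 * (2 * R)) ^ 2 → 1 ≤ l →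
    l ≤ (2 * R) ^ 3 →
    ((((powersetCard k (Finset.univ : Finset (Fin 2 → Fin (2 * (2 * R))))) ×ˢ
      (powersetCard l (Finset.univ : Finset (Fin 3 → Fin (2 * R))))).filter (fun P =>
      ¬ ∀ q : ℝ, 2 ≤ q → q ≤ 4 →
        opNorm (U ∩ un (cell (n := 2) (2 * R)) P.1) (un (cube R) P.2) q q ≤
        ENNReal.ofReal (C * Real.log R ^ 4 *
          ((l / (R : ℝ) ^ 3) ^ (1 / q) * ((k / (R : ℝ) ^ 2) ^ (1 - 1 / q) *
            (R : ℝ) ^ (2 / q - 1 / 2) + (k / (R : ℝ) ^ 2) ^ (1 / 2 - 1 / q) *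
            (R : ℝ) ^ (3 / q - 1)) + (k / (R : ℝ) ^ 2) ^ (1 - 1 / q))))).card : ℝ) ≤
      (R : ℝ) ^ (-A) * ((((2 * (2 * R)) ^ 2).choose k : ℕ) * (((2 * R) ^ 3).choose l : ℕ)) := by
  obtain ⟨C, hC0, hC⟩ := cubes_samp (A + 1) (by linarith)
  obtain ⟨D, hD0, hD⟩ := caps_uncond (-1) (by norm_num) (A + 1) (by linarith)
  refine ⟨256 * D + 48 * (24 + 3 * C), by positivity, fun U hU hUb R k l hR hk hkN hl hlN => ?_⟩
  have hR2 : (2 : ℝ) ≤ R := by exact_mod_cast hR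
  have hR0 : (0 : ℝ) < R := by linarith
  have hℓ := log_half (R : ℝ) hR2
  have h1 := hC R hR l hl hlN
  have h2 := hD U hU (cub_of_ball U hUb) (2 * R) (by omega) k hk hkN
  obtain ⟨B1, hB1⟩ : ∃ B1 : Finset (Finset (Fin 2 → Fin (2 * (2 * R)))), B1 =
    (((Finset.powersetCard k (Finset.univ : Finset (Fin 2 → Fin (2 * (2 * R))))).filter (fun I =>
        ¬ ∀ q : ℝ, 2 ≤ q → q ≤ 4 →
          opQ (volume.restrict U) (Pq 2 (-1)) (un (cell (2 * R)) I) q q ((2 * R : ℕ) : ℝ) ≤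
          ENNReal.ofReal (D * Real.log ((2 * R : ℕ) : ℝ) ^ 4 *
            ((k / ((2 * R : ℕ) : ℝ) ^ 2) ^ (1 - 1 / q) * ((2 * R : ℕ) : ℝ) ^ (2 / q - 1 / 2) +
              (k / ((2 * R : ℕ) : ℝ) ^ 2) ^ (1 / 2 - 1 / q) *
                ((2 * R : ℕ) : ℝ) ^ (3 / q - 1)))))) := ⟨_, rfl⟩
  obtain ⟨B2, hB2⟩ : ∃ B2 : Finset (Finset (Fin 3 → Fin (2 * R))), B2 =
    ((powersetCard l (Finset.univ : Finset (Fin 3 → Fin (2 * R)))).filter (fun I =>
      ¬ Samp C (2 * R) 1 (((2 * R) ^ 3 : ℕ) : ℝ) l (box R) (un (cube R) I))) := ⟨_, rfl⟩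
  rw [← hB1] at h2
  rw [← hB2] at h1
  have hsub : (((powersetCard k (Finset.univ : Finset (Fin 2 → Fin (2 * (2 * R))))) ×ˢ
      (powersetCard l (Finset.univ : Finset (Fin 3 → Fin (2 * R))))).filter (fun P =>
      ¬ ∀ q : ℝ, 2 ≤ q → q ≤ 4 →
        opNorm (U ∩ un (cell (n := 2) (2 * R)) P.1) (un (cube R) P.2) q q ≤
        ENNReal.ofReal ((256 * D + 48 * (24 + 3 * C)) * Real.log R ^ 4 *
          ((l / (R : ℝ) ^ 3) ^ (1 / q) * ((k / (R : ℝ) ^ 2) ^ (1 - 1 / q) *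
            (R : ℝ) ^ (2 / q - 1 / 2) + (k / (R : ℝ) ^ 2) ^ (1 / 2 - 1 / q) *
            (R : ℝ) ^ (3 / q - 1)) + (k / (R : ℝ) ^ 2) ^ (1 - 1 / q))))) ⊆
      (B1 ×ˢ (powersetCard l (Finset.univ : Finset (Fin 3 → Fin (2 * R))))) ∪
        ((powersetCard k (Finset.univ : Finset (Fin 2 → Fin (2 * (2 * R))))) ×ˢ B2) := by
    intro P hP
    rw [mem_filter, mem_product] at hP
    obtain ⟨⟨hP1, hP2⟩, hbad⟩ := hP
    rw [mem_union, mem_product, mem_product]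
    by_contra hcon
    push Not at hcon
    have hn1 : P.1 ∉ B1 := fun h => hcon.1 h hP2
    have hn2 : P.2 ∉ B2 := hcon.2 hP1
    rw [hB1, mem_filter, not_and, not_not] at hn1
    rw [hB2, mem_filter, not_and, not_not] at hn2
    have g1 := hn1 hP1
    have g2 := hn2 hP2
    refine hbad fun q hq hq4 => ?_
    have hq0 : 0 < q := by linarith
    set S := un (cell (n := 2) (2 * R)) P.1 with hS
    have hSm : MeasurableSet S := un_cell_meas (2 * R) P.1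
    have a1 := cubes_op C hC0 R hR l hl hlN P.2 (mem_powersetCard.1 hP2).2 g2 (U ∩ S)
      (hU.inter hSm) (Set.inter_subset_left.trans hUb) q q (by linarith) hq
    have a2 := op_caps U hU hUb S hSm (box R) ((2 * R : ℕ) : ℝ) (by
      push_cast; exact box_ball R hR0) q q
    have a3 := a2.trans (g1 q hq hq4)
    have hq1 : 0 ≤ 1 - 1 / q := by
      have : 1 / q ≤ 1 := by rw [div_le_one hq0]; linarith
      linarith
    have a4 : volume (U ∩ S) ^ (1 - 1 / q) ≤ ENNReal.ofReal ((k / (R : ℝ) ^ 2) ^ (1 - 1 / q)) := by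
      rw [← ENNReal.ofReal_rpow_of_nonneg (by positivity) hq1]
      refine ENNReal.rpow_le_rpow ?_ hq1
      have := vol_caps R hR P.1 U
      rw [(mem_powersetCard.1 hP1).2] at this
      exact this
    refine (a1.trans (add_le_add (mul_le_mul' le_rfl a3) (mul_le_mul' le_rfl a4))).trans ?_
    rw [← ENNReal.ofReal_mul (by positivity), ← ENNReal.ofReal_mul (by positivity),
      ← ENNReal.ofReal_add (by positivity) (by positivity)]
    refine ENNReal.ofReal_le_ofReal ?_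
    have hc2 : ((2 * R : ℕ) : ℝ) = 2 * R := by push_cast; ring
    rw [hc2]
    have e5 : 2 / q = 2 * (1 / q) := by ring
    have e6 : 3 / q = 3 * (1 / q) := by ring
    have hi1 : 0 < 1 / q := by positivity
    have hi2 : 1 / q ≤ 1 / 2 := by rw [div_le_div_iff₀ hq0 (by norm_num)]; linarith
    have hi4 : 1 / 4 ≤ 1 / q := by rw [div_le_div_iff₀ (by norm_num) hq0]; linarith
    rw [e5, e6]
    set y := 1 / q with hy
    have h9 : Real.log (2 * (R : ℝ)) ≤ 2 * Real.log R := by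
      rw [Real.log_mul (by norm_num) hR0.ne']
      have := Real.log_le_log (by norm_num) hR2
      linarith
    have h9' : 0 ≤ Real.log (2 * (R : ℝ)) := Real.log_nonneg (by linarith)
    have h10 : Real.log (2 * (R : ℝ)) ^ 4 ≤ 16 * Real.log R ^ 4 := by
      calc Real.log (2 * (R : ℝ)) ^ 4 ≤ (2 * Real.log R) ^ 4 := pow_le_pow_left₀ h9' h9 4
        _ = _ := by ring
    have hb : k / (2 * (R : ℝ)) ^ 2 ≤ k / (R : ℝ) ^ 2 :=
      div_le_div_of_nonneg_left (Nat.cast_nonneg k) (by positivity)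
        (pow_le_pow_left₀ hR0.le (by linarith) 2)
    have h7 : (2 * (R : ℝ)) ^ (2 * y - 1 / 2) ≤ 2 * (R : ℝ) ^ (2 * y - 1 / 2) := by
      rw [Real.mul_rpow (by norm_num) hR0.le]
      refine mul_le_mul_of_nonneg_right ?_ (by positivity)
      calc (2 : ℝ) ^ (2 * y - 1 / 2) ≤ 2 ^ (1 : ℝ) :=
            Real.rpow_le_rpow_of_exponent_le (by norm_num) (by linarith)
        _ = 2 := Real.rpow_one _
    have h8 : (2 * (R : ℝ)) ^ (3 * y - 1) ≤ 2 * (R : ℝ) ^ (3 * y - 1) := by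
      rw [Real.mul_rpow (by norm_num) hR0.le]
      refine mul_le_mul_of_nonneg_right ?_ (by positivity)
      calc (2 : ℝ) ^ (3 * y - 1) ≤ 2 ^ (1 : ℝ) :=
            Real.rpow_le_rpow_of_exponent_le (by norm_num) (by linarith)
        _ = 2 := Real.rpow_one _
    obtain ⟨w, hw⟩ : ∃ w : ℝ, w = (k / (R : ℝ) ^ 2) ^ (1 - y) * (R : ℝ) ^ (2 * y - 1 / 2) +
      (k / (R : ℝ) ^ 2) ^ (1 / 2 - y) * (R : ℝ) ^ (3 * y - 1) := ⟨_, rfl⟩
    have hw0 : 0 ≤ w := by rw [hw]; positivity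
    have h11 : (k / (2 * (R : ℝ)) ^ 2) ^ (1 - y) * (2 * (R : ℝ)) ^ (2 * y - 1 / 2) +
        (k / (2 * (R : ℝ)) ^ 2) ^ (1 / 2 - y) * (2 * (R : ℝ)) ^ (3 * y - 1) ≤ 2 * w := by
      have b1 : (k / (2 * (R : ℝ)) ^ 2) ^ (1 - y) * (2 * (R : ℝ)) ^ (2 * y - 1 / 2) ≤
          (k / (R : ℝ) ^ 2) ^ (1 - y) * (2 * (R : ℝ) ^ (2 * y - 1 / 2)) :=
        mul_le_mul (Real.rpow_le_rpow (by positivity) hb (by linarith)) h7 (by positivity)
          (by positivity)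
      have b2 : (k / (2 * (R : ℝ)) ^ 2) ^ (1 / 2 - y) * (2 * (R : ℝ)) ^ (3 * y - 1) ≤
          (k / (R : ℝ) ^ 2) ^ (1 / 2 - y) * (2 * (R : ℝ) ^ (3 * y - 1)) :=
        mul_le_mul (Real.rpow_le_rpow (by positivity) hb (by linarith)) h8 (by positivity)
          (by positivity)
      rw [hw]
      linarith
    rw [← hw]
    have h12 : D * Real.log (2 * (R : ℝ)) ^ 4 *
        ((k / (2 * (R : ℝ)) ^ 2) ^ (1 - y) * (2 * (R : ℝ)) ^ (2 * y - 1 / 2) +
        (k / (2 * (R : ℝ)) ^ 2) ^ (1 / 2 - y) * (2 * (R : ℝ)) ^ (3 * y - 1)) ≤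
        D * (16 * Real.log R ^ 4) * (2 * w) :=
      mul_le_mul (mul_le_mul_of_nonneg_left h10 hD0) h11 (by positivity) (by positivity)
    obtain ⟨u, hu⟩ : ∃ u : ℝ, u = (l / (R : ℝ) ^ 3) ^ y := ⟨_, rfl⟩
    obtain ⟨v, hv⟩ : ∃ v : ℝ, v = (k / (R : ℝ) ^ 2) ^ (1 - y) := ⟨_, rfl⟩
    have hu0 : 0 ≤ u := by rw [hu]; positivity
    have hv0 : 0 ≤ v := by rw [hv]; positivity
    have h13 : 8 * u * (D * Real.log (2 * (R : ℝ)) ^ 4 *
        ((k / (2 * (R : ℝ)) ^ 2) ^ (1 - y) * (2 * (R : ℝ)) ^ (2 * y - 1 / 2) +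
        (k / (2 * (R : ℝ)) ^ 2) ^ (1 / 2 - y) * (2 * (R : ℝ)) ^ (3 * y - 1))) ≤
        256 * D * (Real.log R ^ 4 * (u * w)) := by
      calc _ ≤ 8 * u * (D * (16 * Real.log R ^ 4) * (2 * w)) :=
            mul_le_mul_of_nonneg_left h12 (by positivity)
        _ = _ := by ring
    have h3 : Real.log R ^ 2 ≤ 4 * Real.log R ^ 4 := by
      have h4 : (1 / 2 : ℝ) ^ 2 ≤ Real.log R ^ 2 := pow_le_pow_left₀ (by norm_num) hℓ 2
      have h5 : 0 ≤ Real.log R ^ 2 := by positivity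
      calc Real.log R ^ 2 = 4 * (Real.log R ^ 2 * (1 / 2) ^ 2) := by ring
        _ ≤ 4 * (Real.log R ^ 2 * Real.log R ^ 2) := by
            refine mul_le_mul_of_nonneg_left (mul_le_mul_of_nonneg_left h4 h5) (by norm_num)
        _ = _ := by ring
    have h14 : 12 * (24 + 3 * C) * Real.log R ^ 2 * v ≤
        48 * (24 + 3 * C) * (Real.log R ^ 4 * v) := by
      calc 12 * (24 + 3 * C) * Real.log R ^ 2 * v ≤
            12 * (24 + 3 * C) * (4 * Real.log R ^ 4) * v :=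
            mul_le_mul_of_nonneg_right (mul_le_mul_of_nonneg_left h3 (by positivity)) hv0
        _ = _ := by ring
    rw [← hu, ← hv]
    have h15 : 0 ≤ (24 + 3 * C) * (Real.log R ^ 4 * (u * w)) := by positivity
    have h16 : 0 ≤ D * (Real.log R ^ 4 * v) := by positivity
    calc _ ≤ 256 * D * (Real.log R ^ 4 * (u * w)) + 48 * (24 + 3 * C) * (Real.log R ^ 4 * v) :=
          add_le_add h13 h14
      _ ≤ _ := by nlinarith
  have hR1 : (1 : ℝ) ≤ R := by linarith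
  have hRA : (R : ℝ) ^ (-(A + 1)) ≤ 1 / 2 * (R : ℝ) ^ (-A) := by
    have e : (R : ℝ) ^ (-(A + 1)) = (R : ℝ) ^ (-A) * (R : ℝ) ^ (-1 : ℝ) := by
      rw [← Real.rpow_add hR0]; congr 1; ring
    rw [e, Real.rpow_neg_one, mul_comm]
    refine mul_le_mul_of_nonneg_right ?_ (by positivity)
    rw [one_div]
    exact inv_anti₀ (by norm_num) hR2
  have hRA2 : ((2 * R : ℕ) : ℝ) ^ (-(A + 1)) ≤ (R : ℝ) ^ (-(A + 1)) :=
    Real.rpow_le_rpow_of_nonpos hR0 (by push_cast; linarith) (by linarith)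
  set N1 : ℝ := ((((2 * (2 * R)) ^ 2).choose k : ℕ) : ℝ) with hN1
  set N2 : ℝ := ((((2 * R) ^ 3).choose l : ℕ) : ℝ) with hN2
  have hN10 : 0 ≤ N1 := Nat.cast_nonneg _
  have hN20 : 0 ≤ N2 := Nat.cast_nonneg _
  refine le_trans (Nat.cast_le.2 ((Finset.card_le_card hsub).trans (Finset.card_union_le _ _))) ?_
  rw [card_product, card_product, card_powersetCard, card_powersetCard, card_caps, card_cubes]
  push_cast
  rw [← hN1, ← hN2]
  have h3 : (B1.card : ℝ) ≤ 1 / 2 * (R : ℝ) ^ (-A) * N1 :=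
    h2.trans (mul_le_mul_of_nonneg_right (hRA2.trans hRA) hN10)
  have h4 : (B2.card : ℝ) ≤ 1 / 2 * (R : ℝ) ^ (-A) * N2 :=
    h1.trans (mul_le_mul_of_nonneg_right hRA hN20)
  calc (B1.card : ℝ) * N2 + N1 * (B2.card : ℝ) ≤
      1 / 2 * (R : ℝ) ^ (-A) * N1 * N2 + N1 * (1 / 2 * (R : ℝ) ^ (-A) * N2) :=
        add_le_add (mul_le_mul_of_nonneg_right h3 hN20) (mul_le_mul_of_nonneg_left h4 hN10)
    _ = _ := by ring

end Pool.Agent.J6H90.RG
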