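import Pool.Agent.J6H90.RG.Cube
import Pool.Agent.N248.LC.Eqv

set_option autoImplicit false
set_option linter.unusedSectionVars false

/-!
# Random regions: unconditional bounds
-/

namespace Pool.Agent.J6H90.RG

open Finset MeasureTheory
open Pool.Agent.N248.RC
open scoped RealInnerProductSpace ENNReal

theorem Phi_eq (x : E 2) : Phi x = Pool.Agent.R412.RT.Phi x := by
  ext i
  have h0 : Pool.Agent.R412.RT.Phi x (0 : Fin 3) = x 0 := Pool.Agent.R412.RT.Phi_cast x 0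
  have h1 : Pool.Agent.R412.RT.Phi x (1 : Fin 3) = x 1 := Pool.Agent.R412.RT.Phi_cast x 1
  have h2 : Pool.Agent.R412.RT.Phi x (2 : Fin 3) = ∑ i, x i ^ 2 := Pool.Agent.R412.RT.Phi_last x
  fin_cases i
  · exact h0.symm
  · exact h1.symm
  · refine Eq.trans ?_ h2.symm
    rw [Fin.sum_univ_two]
    rfl

theorem cub_of_ball (U : Set (E 2)) (hU : U ⊆ Metric.ball 0 (1 / 2)) :
    U ⊆ Pool.Agent.N248.RR.cub 2 := by
  intro x hx i
  have h1 : ‖x‖ < 1 / 2 := by simpa using hU hx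
  have h2 : |x i| ≤ ‖x‖ := PiLp.norm_apply_le x i
  linarith

open Pool.Agent.N248.LC Pool.Agent.N248.RR in
theorem ext_eqo (U : Set (E 2)) (hUm : MeasurableSet U) (hU : U ⊆ Metric.ball 0 (1 / 2))
    (S : Set (E 2)) (hS : MeasurableSet S) (f : E 2 → ℂ) :
    ext (U ∩ S) f = Eo (volume.restrict U) (ker (Pq 2 (-1))) (S.indicator f) := by
  ext ξ
  unfold ext Eo
  rw [← setIntegral_indicator hS]
  · refine setIntegral_congr_fun hUm fun x hx => ?_
    by_cases hxS : x ∈ S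
    · rw [Set.indicator_of_mem hxS]
      simp only [Set.indicator_of_mem hxS]
      rw [mul_comm]
      congr 1
      unfold ker Pq ex
      rw [Set.indicator_of_mem (cub_of_ball U hU hx)]
      congr 1
      unfold sPhi
      rw [inner_smul_left, ← Phi_eq]
      simp
    · rw [Set.indicator_of_notMem hxS]
      simp [Set.indicator_of_notMem hxS]

open Pool.Agent.N248.LC in
/-- caps and cubes -/
theorem op_caps (U : Set (E 2)) (hUm : MeasurableSet U) (hU : U ⊆ Metric.ball 0 (1 / 2))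
    (S : Set (E 2)) (hS : MeasurableSet S) (Y : Set (E 3)) (r : ℝ) (hY : Y ⊆ Metric.ball 0 r)
    (q p : ℝ) :
    opNorm (U ∩ S) Y q p ≤ opQ (volume.restrict U) (Pq 2 (-1)) S q p r := by
  have := U_fin U hU
  refine opNorm_le _ _ _ _ _ fun f hf hf1 => ?_
  rw [ext_eqo U hUm hU S hS f]
  refine (eLpNorm_mono_measure _ (Measure.restrict_mono hY le_rfl)).trans ?_
  refine le_opQ (volume.restrict U) (Pq 2 (-1)) S q p r (S.indicator f) ⟨hf.indicator hS,
    fun x hx => Set.indicator_of_notMem hx f, ?_⟩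
  rw [eLpNorm_indicator_eq_eLpNorm_restrict hS, Measure.restrict_restrict hS, Set.inter_comm]
  exact hf1

theorem caps_cover (R : ℕ) (hR : 1 ≤ R) : Metric.ball (0 : E 2) (1 / 2) ⊆
    un (cell (n := 2) R) Finset.univ := by
  intro x hx
  have hx1 : ∀ i, |x i| < 1 / 2 := fun i =>
    (PiLp.norm_apply_le x i).trans_lt (by simpa using hx)
  have hR1 : (1 : ℝ) ≤ R := by exact_mod_cast hR
  have h0 : ∀ i, 0 ≤ R * (x i + 1) := by
    intro i
    have := (abs_lt.1 (hx1 i)).1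
    have : 0 ≤ x i + 1 := by linarith
    positivity
  have hb : ∀ i, ⌊(R : ℝ) * (x i + 1)⌋₊ < 2 * R := by
    intro i
    rw [Nat.floor_lt (h0 i)]
    push_cast
    have := (abs_lt.1 (hx1 i)).2
    nlinarith
  unfold un
  simp only [Set.mem_iUnion]
  refine ⟨fun i => ⟨⌊(R : ℝ) * (x i + 1)⌋₊, hb i⟩, Finset.mem_univ _, fun i => ?_⟩
  exact ⟨Nat.floor_le (h0 i), Nat.lt_floor_add_one _⟩

theorem un_cell_meas (R : ℕ) (I : Finset (Fin 2 → Fin (2 * R))) :
    MeasurableSet (un (cell (n := 2) R) I) := by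
  unfold un
  exact Finset.measurableSet_biUnion _ fun j _ => cell_meas R j

open Pool.Agent.N248.LC in
/-- **The bound for the whole box** (Tomas and Stein, and Plancherel). -/
theorem full : ∃ K : ℝ, 0 ≤ K ∧ ∀ U : Set (E 2), MeasurableSet U → U ⊆ Metric.ball 0 (1 / 2) →
    ∀ R : ℕ, 2 ≤ R → ∀ q : ℝ, 2 ≤ q → q ≤ 4 →
      opNorm U (box R) q q ≤ ENNReal.ofReal (K * Real.log R ^ 4 * (R : ℝ) ^ (2 / q - 1 / 2)) := by
  classical
  obtain ⟨C, hC0, hC⟩ := caps_uncond (-1) (by norm_num) 1 (by norm_num)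
  refine ⟨256 * C, by positivity, fun U hUm hU R hR q hq hq4 => ?_⟩
  have hR1 : (2 : ℝ) ≤ R := by exact_mod_cast hR
  have hR0 : (0 : ℝ) < R := by linarith
  have hℓ := log_half (R : ℝ) hR1
  have h := hC U hUm (cub_of_ball U hU) (2 * R) (by omega) ((2 * (2 * R)) ^ 2)
    (Nat.one_le_pow _ _ (by omega)) le_rfl
  rw [Nat.choose_self] at h
  have hcard : ((Finset.powersetCard ((2 * (2 * R)) ^ 2)
      (Finset.univ : Finset (Fin 2 → Fin (2 * (2 * R))))).filter (fun I =>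
        ¬ ∀ q : ℝ, 2 ≤ q → q ≤ 4 → opQ (volume.restrict U) (Pq 2 (-1)) (un (cell (2 * R)) I) q q
          ((2 * R : ℕ) : ℝ) ≤ ENNReal.ofReal (C * Real.log ((2 * R : ℕ) : ℝ) ^ 4 *
            ((((2 * (2 * R)) ^ 2 : ℕ) / ((2 * R : ℕ) : ℝ) ^ 2) ^ (1 - 1 / q) *
              ((2 * R : ℕ) : ℝ) ^ (2 / q - 1 / 2) +
              (((2 * (2 * R)) ^ 2 : ℕ) / ((2 * R : ℕ) : ℝ) ^ 2) ^ (1 / 2 - 1 / q) *
                ((2 * R : ℕ) : ℝ) ^ (3 / q - 1))))).card = 0 := by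
    have h1 : ((2 * R : ℕ) : ℝ) ^ (-(1 : ℝ)) * (((1 : ℕ)) : ℝ) < 1 := by
      rw [Nat.cast_one, mul_one, Real.rpow_neg_one]
      apply inv_lt_one_of_one_lt₀
      push_cast
      linarith
    have h2 := h.trans_lt h1
    exact_mod_cast Nat.lt_one_iff.1 (by exact_mod_cast h2)
  rw [Finset.card_eq_zero, Finset.filter_eq_empty_iff] at hcard
  have hmem : (Finset.univ : Finset (Fin 2 → Fin (2 * (2 * R)))) ∈
      Finset.powersetCard ((2 * (2 * R)) ^ 2)
        (Finset.univ : Finset (Fin 2 → Fin (2 * (2 * R)))) := by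
    rw [mem_powersetCard]
    exact ⟨subset_rfl, card_caps (2 * R)⟩
  have h3 := not_not.1 (hcard hmem) q hq hq4
  have hcov : U ∩ un (cell (n := 2) (2 * R)) Finset.univ = U :=
    Set.inter_eq_left.2 (hU.trans (caps_cover (2 * R) (by omega)))
  have h4 := op_caps U hUm hU (un (cell (n := 2) (2 * R)) Finset.univ)
    (un_cell_meas (2 * R) Finset.univ) (box R) ((2 * R : ℕ) : ℝ) (by
      push_cast; exact box_ball R hR0) q q
  rw [hcov] at h4
  refine (h4.trans h3).trans (ENNReal.ofReal_le_ofReal ?_)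
  have hq0 : 0 < q := by linarith
  have e4 : (((2 * (2 * R)) ^ 2 : ℕ) / ((2 * R : ℕ) : ℝ) ^ 2) = 4 := by
    push_cast
    field_simp
    ring
  rw [e4]
  have hi1 : 0 < 1 / q := by positivity
  have hi2 : 1 / q ≤ 1 / 2 := by rw [div_le_div_iff₀ hq0 (by norm_num)]; linarith
  have hi4 : 1 / 4 ≤ 1 / q := by rw [div_le_div_iff₀ (by norm_num) hq0]; linarith
  have e5 : 2 / q = 2 * (1 / q) := by ring
  have e6 : 3 / q = 3 * (1 / q) := by ring
  set y := 1 / q with hy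
  have h5 : (4 : ℝ) ^ (1 - y) ≤ 4 := by
    calc (4 : ℝ) ^ (1 - y) ≤ 4 ^ (1 : ℝ) :=
          Real.rpow_le_rpow_of_exponent_le (by norm_num) (by linarith)
      _ = 4 := Real.rpow_one _
  have h6 : (4 : ℝ) ^ (1 / 2 - y) ≤ 4 := by
    calc (4 : ℝ) ^ (1 / 2 - y) ≤ 4 ^ (1 : ℝ) :=
          Real.rpow_le_rpow_of_exponent_le (by norm_num) (by linarith)
      _ = 4 := Real.rpow_one _
  have hc2 : ((2 * R : ℕ) : ℝ) = 2 * R := by push_cast; ring
  rw [hc2, e5, e6]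
  have h7 : (2 * (R : ℝ)) ^ (2 * y - 1 / 2) ≤ 2 * (R : ℝ) ^ (2 * y - 1 / 2) := by
    rw [Real.mul_rpow (by norm_num) hR0.le]
    refine mul_le_mul_of_nonneg_right ?_ (by positivity)
    calc (2 : ℝ) ^ (2 * y - 1 / 2) ≤ 2 ^ (1 : ℝ) :=
          Real.rpow_le_rpow_of_exponent_le (by norm_num) (by linarith)
      _ = 2 := Real.rpow_one _
  have h8 : (2 * (R : ℝ)) ^ (3 * y - 1) ≤ (2 * (R : ℝ)) ^ (2 * y - 1 / 2) :=
    Real.rpow_le_rpow_of_exponent_le (by linarith) (by linarith)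
  have h9 : Real.log (2 * (R : ℝ)) ≤ 2 * Real.log R := by
    rw [Real.log_mul (by norm_num) hR0.ne']
    have := Real.log_le_log (by norm_num) hR1
    linarith
  have h9' : 0 ≤ Real.log (2 * (R : ℝ)) := Real.log_nonneg (by linarith)
  have h10 : Real.log (2 * (R : ℝ)) ^ 4 ≤ 16 * Real.log R ^ 4 := by
    calc Real.log (2 * (R : ℝ)) ^ 4 ≤ (2 * Real.log R) ^ 4 := pow_le_pow_left₀ h9' h9 4
      _ = _ := by ring
  set Z := (R : ℝ) ^ (2 * y - 1 / 2) with hZ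
  have hZ0 : 0 ≤ Z := by positivity
  have h11 : (4 : ℝ) ^ (1 - y) * (2 * (R : ℝ)) ^ (2 * y - 1 / 2) +
      (4 : ℝ) ^ (1 / 2 - y) * (2 * (R : ℝ)) ^ (3 * y - 1) ≤ 16 * Z := by
    have a1 : (4 : ℝ) ^ (1 - y) * (2 * (R : ℝ)) ^ (2 * y - 1 / 2) ≤ 4 * (2 * Z) :=
      mul_le_mul h5 h7 (by positivity) (by norm_num)
    have a2 : (4 : ℝ) ^ (1 / 2 - y) * (2 * (R : ℝ)) ^ (3 * y - 1) ≤ 4 * (2 * Z) :=
      mul_le_mul h6 (h8.trans h7) (by positivity) (by norm_num)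
    linarith
  calc C * Real.log (2 * (R : ℝ)) ^ 4 * ((4 : ℝ) ^ (1 - y) * (2 * (R : ℝ)) ^ (2 * y - 1 / 2) +
      (4 : ℝ) ^ (1 / 2 - y) * (2 * (R : ℝ)) ^ (3 * y - 1)) ≤
      C * (16 * Real.log R ^ 4) * (16 * Z) :=
        mul_le_mul (mul_le_mul_of_nonneg_left h10 hC0) h11 (by positivity) (by positivity)
    _ = _ := by ring

end Pool.Agent.J6H90.RG
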