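import Pool.Agent.N248.RC.Gen
import Pool.Agent.J6H90.RG.Defs

set_option autoImplicit false
set_option linter.unusedSectionVars false

/-!
# Random regions: the level sets of the extension of one function
-/

namespace Pool.Agent.J6H90.RG

open Finset MeasureTheory
open Pool.Agent.N248.RC
open scoped RealInnerProductSpace

theorem Phi_meas : Measurable Phi := by
  unfold Phi
  refine (MeasurableEquiv.toLp 2 (Fin 3 → ℝ)).measurable.comp ?_
  refine measurable_pi_lambda _ fun i => ?_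
  fin_cases i
  · simp only [Fin.zero_eta, Matrix.cons_val_zero]; fun_prop
  · simp only [Fin.mk_one, Matrix.cons_val_one]; fun_prop
  · simp only [Fin.reduceFinMk, Matrix.cons_val]; fun_prop

theorem Phi_lip (x z : E 2) : ‖Phi x - Phi z‖ ≤ (1 + ‖x‖ + ‖z‖) * ‖x - z‖ := by
  have hx := norm_nonneg x
  have hz := norm_nonneg z
  have hxz := norm_nonneg (x - z)
  have h1 : ‖Phi x - Phi z‖ ^ 2 = ‖x - z‖ ^ 2 + (‖x‖ ^ 2 - ‖z‖ ^ 2) ^ 2 := by
    rw [EuclideanSpace.norm_sq_eq, EuclideanSpace.norm_sq_eq, EuclideanSpace.norm_sq_eq,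
      EuclideanSpace.norm_sq_eq, Fin.sum_univ_three, Fin.sum_univ_two, Fin.sum_univ_two,
      Fin.sum_univ_two]
    simp only [Phi, PiLp.sub_apply, Real.norm_eq_abs, sq_abs]
    simp only [Matrix.cons_val_zero, Matrix.cons_val_one, Matrix.cons_val]
  have h2 : |‖x‖ ^ 2 - ‖z‖ ^ 2| ≤ (‖x‖ + ‖z‖) * ‖x - z‖ := by
    have e : ‖x‖ ^ 2 - ‖z‖ ^ 2 = (‖x‖ + ‖z‖) * (‖x‖ - ‖z‖) := by ring
    rw [e, abs_mul, abs_of_nonneg (by linarith : (0 : ℝ) ≤ ‖x‖ + ‖z‖)]
    exact mul_le_mul_of_nonneg_left (abs_norm_sub_norm_le x z) (by linarith)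
  have h3 : (‖x‖ ^ 2 - ‖z‖ ^ 2) ^ 2 ≤ ((‖x‖ + ‖z‖) * ‖x - z‖) ^ 2 := by
    rw [← sq_abs]
    exact pow_le_pow_left₀ (abs_nonneg _) h2 2
  refine (pow_le_pow_iff_left₀ (norm_nonneg _) (by positivity) (by norm_num : (2 : ℕ) ≠ 0)).1 ?_
  rw [h1]
  nlinarith [mul_nonneg (add_nonneg hx hz) hxz]

/-- the kernel, cut off at radius `R` -/
noncomputable def kr (R : ℝ) (x : E 2) (y : E 3) : ℂ :=
  (Metric.ball (0 : E 3) R).indicator
    (fun y => Complex.exp (-((⟪Phi x, y⟫ : ℝ) : ℂ) * Complex.I)) y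

theorem ek_norm (t : ℝ) : ‖Complex.exp (-((t : ℝ) : ℂ) * Complex.I)‖ = 1 := by
  have : (-((t : ℝ) : ℂ)) = ((-t : ℝ) : ℂ) := by push_cast; ring
  rw [this]
  exact Complex.norm_exp_ofReal_mul_I _

theorem kr_norm (R : ℝ) (x : E 2) (y : E 3) : ‖kr R x y‖ ≤ 1 := by
  unfold kr
  by_cases hy : y ∈ Metric.ball (0 : E 3) R
  · rw [Set.indicator_of_mem hy]
    exact (ek_norm _).le
  · rw [Set.indicator_of_notMem hy]
    simp

theorem kr_meas (R : ℝ) : Measurable (Function.uncurry (kr R)) := by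
  have h : Measurable (fun z : E 2 × E 3 =>
      Complex.exp (-((⟪Phi z.1, z.2⟫ : ℝ) : ℂ) * Complex.I)) := by
    have h1 : Measurable fun z : E 2 × E 3 => ⟪Phi z.1, z.2⟫ :=
      (Phi_meas.comp measurable_fst).inner measurable_snd
    exact Complex.measurable_exp.comp
      ((Complex.measurable_ofReal.comp h1).neg.mul_const _)
  have h2 : Function.uncurry (kr R) = (Prod.snd ⁻¹' Metric.ball (0 : E 3) R).indicator
      (fun z : E 2 × E 3 => Complex.exp (-((⟪Phi z.1, z.2⟫ : ℝ) : ℂ) * Complex.I)) := by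
    ext z
    rfl
  rw [h2]
  exact h.indicator (measurable_snd measurableSet_ball)

theorem ek_close (s t : ℝ) : ‖Complex.exp (-((s : ℝ) : ℂ) * Complex.I) -
    Complex.exp (-((t : ℝ) : ℂ) * Complex.I)‖ ≤ |s - t| := by
  have e : Complex.exp (-((s : ℝ) : ℂ) * Complex.I) - Complex.exp (-((t : ℝ) : ℂ) * Complex.I) =
      Complex.exp (-((t : ℝ) : ℂ) * Complex.I) *
        (Complex.exp (Complex.I * ((t - s : ℝ) : ℂ)) - 1) := by
    rw [mul_sub, ← Complex.exp_add, mul_one]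
    congr 2
    push_cast
    ring
  rw [e, norm_mul, ek_norm, one_mul]
  refine (Real.norm_exp_I_mul_ofReal_sub_one_le).trans (le_of_eq ?_)
  rw [Real.norm_eq_abs, abs_sub_comm]

theorem kr_close (R : ℝ) (x z : E 2) (y : E 3) (hxz : 1 + ‖x‖ + ‖z‖ ≤ 3) (hR : 0 ≤ R) :
    ‖kr R x y - kr R z y‖ ≤ 3 * R * ‖x - z‖ := by
  unfold kr
  by_cases hy : y ∈ Metric.ball (0 : E 3) R
  · rw [Set.indicator_of_mem hy, Set.indicator_of_mem hy]
    refine (ek_close _ _).trans ?_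
    rw [← inner_sub_left]
    refine (abs_real_inner_le_norm _ _).trans ?_
    have h1 := Phi_lip x z
    have h2 : ‖y‖ ≤ R := by rw [mem_ball_zero_iff] at hy; exact hy.le
    have h3 : ‖Phi x - Phi z‖ ≤ 3 * ‖x - z‖ :=
      h1.trans (mul_le_mul_of_nonneg_right hxz (norm_nonneg _))
    calc ‖Phi x - Phi z‖ * ‖y‖ ≤ (3 * ‖x - z‖) * R :=
          mul_le_mul h3 h2 (norm_nonneg _) (by positivity)
      _ = _ := by ring
  · rw [Set.indicator_of_notMem hy, Set.indicator_of_notMem hy, sub_zero, norm_zero]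
    positivity

/-- the transform is the extension in the ball -/
theorem tr_eq (R : ℝ) (U : Set (E 2)) (g : E 2 → ℂ) (y : E 3) (hy : y ∈ Metric.ball (0 : E 3) R) :
    tr (volume.restrict U) (kr R) g y = ext U g y := by
  unfold tr ext kr
  refine integral_congr_ae (Filter.Eventually.of_forall fun x => ?_)
  simp only
  rw [Set.indicator_of_mem hy, mul_comm]

/-- the alphabet -/
noncomputable def Ab (R ρ : ℝ) (M : ℕ) : Option ((Fin 2 → Fin (2 * M + 1)) × Fin 4) → E 3 → ℂ :=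
  Xa fun b => kr R (gpt ρ M b)

theorem kr_meas_right (R : ℝ) (x : E 2) : Measurable (kr R x) :=
  (kr_meas R).of_uncurry_left

theorem Ab_meas (R ρ : ℝ) (M : ℕ) (i : Option ((Fin 2 → Fin (2 * M + 1)) × Fin 4)) :
    Measurable (Ab R ρ M i) := Xa_meas _ (fun b => kr_meas_right R _) i

theorem Ab_norm (R ρ : ℝ) (M : ℕ) (i : Option ((Fin 2 → Fin (2 * M + 1)) × Fin 4)) (y : E 3) :
    ‖Ab R ρ M i y‖ ≤ 1 := Xa_norm _ (fun _ y => kr_norm R _ y) i y

variable {α : Type*} [DecidableEq α]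

theorem lv (μ : Measure (E 3)) [IsFiniteMeasure μ] (R : ℝ) (hR : 1 ≤ R)
    (J : Finset α) (k : ℕ) (hk : 1 ≤ k) (θ : α → Set (E 3))
    (κ : ℝ) (hκ : 0 < κ) (ρ : ℝ) (hρ : 0 < ρ) (hρ1 : 2 * ρ ≤ 1) (M : ℕ)
    (hM : 1 ≤ M * ρ) (hρk : 3 * R * (2 * ρ) ≤ 1 / (16 * Real.sqrt k)) (Lg Li a : ℝ) (hLg : 1 ≤ Lg)
    (hLi : 0 ≤ Li) (ha : 0 ≤ a) (hexc : 4 * μ.real Set.univ * Real.exp (-Lg) ≤ κ)
    (I : Finset α) (hIJ : I ∈ powersetCard k J) (hI : GoodI μ J k θ κ (Ab R ρ M) Lg Li a I)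
    (U : Set (E 2)) (hU : MeasurableSet U) (hUb : U ⊆ Metric.ball 0 (1 / 2)) (g : E 2 → ℂ)
    (hgi : Integrable g (volume.restrict U)) (hg1 : ∫ x in U, ‖g x‖ ≤ 1) (j : ℕ)
    (hj : j < Nat.clog 4 k) :
    μ.real (un θ I ∩ {y | (1 / 2 : ℝ) ^ (j + 1) < ‖tr (volume.restrict U) (kr R) g y‖}) ≤
      2 * ((k : ℝ) / J.card) *
        μ.real {y | (1 / 2 : ℝ) ^ (j + 1) / 2 < ‖tr (volume.restrict U) (kr R) g y‖} +
        κ * (4 ^ j * (17412 * Lg * Li + a + 3)) := by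
  classical
  set g' : E 2 → ℂ := U.indicator g with hg'
  have hae : g' =ᵐ[volume.restrict U] g := by
    filter_upwards [ae_restrict_mem hU] with x hx
    rw [hg', Set.indicator_of_mem hx]
  have hg'i : Integrable g' (volume.restrict U) := hgi.congr hae.symm
  have hg'1 : ∫ x in U, ‖g' x‖ ≤ 1 := by
    refine le_trans (le_of_eq (integral_congr_ae ?_)) hg1
    filter_upwards [hae] with x hx
    rw [hx]
  have htr : ∀ y, tr (volume.restrict U) (kr R) g' y = tr (volume.restrict U) (kr R) g y := by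
    intro y
    unfold tr
    refine integral_congr_ae ?_
    filter_upwards [hae] with x hx
    rw [hx]
  obtain ⟨w, hw0, hw1, hw⟩ := weights (volume.restrict U) (kr R) (kr_meas R) (kr_norm R)
    (fun b => kr R (gpt ρ M b)) (fun b y => kr_norm R _ y) (rnd ρ M)
    (fun b => rnd_meas ρ M (measurableSet_singleton b)) U
    (1 / (16 * Real.sqrt k)) (by positivity)
    (fun x hx y => by
      have h1 : x ∈ Metric.ball (0 : E 2) 1 :=
        Metric.ball_subset_ball (by norm_num) (hUb hx)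
      have h2 := rnd_near ρ hρ M 1 hM x h1
      push_cast at h2
      have h3 : ‖x‖ < 1 / 2 := by simpa using hUb hx
      have h4 : ‖gpt ρ M (rnd ρ M x)‖ ≤ ‖x‖ + ‖x - gpt ρ M (rnd ρ M x)‖ := by
        have h5 := norm_sub_norm_le (gpt ρ M (rnd ρ M x)) x
        rw [norm_sub_rev] at h5
        linarith
      refine (kr_close R x _ y (by linarith) (by linarith)).trans ?_
      refine le_trans ?_ hρk
      exact mul_le_mul_of_nonneg_left h2 (by linarith))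
    g' hg'i hg'1 (fun x hx => Set.indicator_of_notMem hx _)
  have hG : ∀ y, |‖tr (volume.restrict U) (kr R) g y‖ -
      Real.sqrt 2 * ‖avg w (Ab R ρ M) y‖| ≤ 1 / (16 * Real.sqrt k) := by
    intro y
    rw [← htr y]
    exact hw y
  have hIJ' := mem_powersetCard.1 hIJ
  have hkJ : k ≤ J.card := hIJ'.2 ▸ card_le_card hIJ'.1
  have hk0 : (1 : ℝ) ≤ k := by exact_mod_cast hk
  have hsk : 1 ≤ Real.sqrt k := Real.one_le_sqrt.2 hk0
  obtain ⟨hK1, hK2⟩ := pow_clog k hk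
  set K := Nat.clog 4 k with hK
  have hhalf : (1 / 2 : ℝ) ^ K = ((2 : ℝ) ^ K)⁻¹ := by rw [one_div, inv_pow]
  have hm1 : (4352 * 4 ^ (j + 1) * Lg : ℝ) ≤ mm Lg j := Nat.le_ceil _
  have h41 : (1 : ℝ) ≤ 4 ^ (j + 1) := one_le_pow₀ (by norm_num)
  have hm0 : 1 ≤ mm Lg j := by
    have : (1 : ℝ) ≤ (mm Lg j : ℝ) := by nlinarith
    exact_mod_cast this
  have hlev := level μ J k hkJ θ κ (Ab R ρ M) (Ab_meas R ρ M) (Ab_norm R ρ M) (mm Lg j) hm0
    ((1 / 2 : ℝ) ^ (j + 1)) (tt Lg Li a j) (by positivity) (by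
      refine le_trans ?_ hexc
      refine mul_le_mul_of_nonneg_left (Real.exp_le_exp.2 (neg_le_neg ?_)) (by positivity)
      have e : ((1 / 2 : ℝ) ^ (j + 1) / 16) ^ 2 = ((4 : ℝ) ^ (j + 1))⁻¹ / 256 := by
        rw [div_pow, ← pow_mul, mul_comm (j + 1) 2, pow_mul, ← inv_pow]
        norm_num
      rw [e]
      have h4p : (0 : ℝ) < 4 ^ (j + 1) := by positivity
      rw [show (mm Lg j : ℝ) * (((4 : ℝ) ^ (j + 1))⁻¹ / 256) / 17 =
        (mm Lg j : ℝ) / (4352 * 4 ^ (j + 1)) by field_simp; norm_num]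
      rw [le_div_iff₀ (by positivity)]
      linarith) I (hI j hj) w hw0 hw1
    (fun y => ‖tr (volume.restrict U) (kr R) g y‖) fun y => (hG y).trans (by
      have h1 : (1 / 2 : ℝ) ^ K ≤ (1 / 2 : ℝ) ^ (j + 1) :=
        pow_le_pow_of_le_one (by norm_num) (by norm_num) hj
      rw [hhalf] at h1
      have h2 : 1 / (16 * Real.sqrt k) ≤ ((2 : ℝ) ^ K)⁻¹ / 8 := by
        rw [div_le_div_iff₀ (by positivity) (by norm_num), inv_mul_eq_div,
          le_div_iff₀ (by positivity)]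
        linarith
      linarith)
  refine hlev.trans ?_
  have hT : tt Lg Li a j + 3 ≤ 4 ^ j * (17412 * Lg * Li + a + 3) := by
    have hm2 : (mm Lg j : ℝ) ≤ 4352 * 4 ^ (j + 1) * Lg + 1 := by
      have := Nat.ceil_lt_add_one (show (0 : ℝ) ≤ 4352 * 4 ^ (j + 1) * Lg by positivity)
      exact this.le
    have hm3 : (mm Lg j : ℝ) ≤ 17412 * Lg * 4 ^ j := by
      have : (1 : ℝ) ≤ 4 ^ (j + 1) * Lg := by nlinarith
      rw [pow_succ] at this hm2
      nlinarith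
    have h4 : (1 : ℝ) ≤ 4 ^ j := one_le_pow₀ (by norm_num)
    unfold tt
    have h5 : (mm Lg j : ℝ) * Li ≤ (17412 * Lg * 4 ^ j) * Li := mul_le_mul_of_nonneg_right hm3 hLi
    have h6 : a + 3 ≤ 4 ^ j * (a + 3) := by nlinarith
    calc (mm Lg j : ℝ) * Li + a + 3 ≤ (17412 * Lg * 4 ^ j) * Li + 4 ^ j * (a + 3) := by linarith
      _ = _ := by ring
  have h7 := mul_le_mul_of_nonneg_left hT hκ.le
  linarith

end Pool.Agent.J6H90.RG
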