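import Pool.Agent.J6H90.RG.Typ

set_option autoImplicit false
set_option linter.unusedSectionVars false

/-!
# Random regions: from level sets to `L^p`
-/

namespace Pool.Agent.J6H90.RG

open Finset MeasureTheory
open Pool.Agent.N248.RC
open scoped RealInnerProductSpace ENNReal

/-- the bound for the levels -/
theorem hbound (p F k κ L2 : ℝ) (hp : 2 ≤ p) (hF : 0 < F) (hk : 1 ≤ k) (hκ : 0 < κ)
    (hL : 0 ≤ L2) :
    ∫⁻ t in Set.Ioi (0 : ℝ), ((Set.Ioc 0 (F / Real.sqrt k)).indicator
        (fun t => ENNReal.ofReal (κ * F ^ (p - 2) * k * t)) t +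
      (Set.Ioc (F / Real.sqrt k) F).indicator
        (fun t => ENNReal.ofReal (κ * F ^ (p - 2) * L2 * F ^ 2 * t⁻¹)) t) ≤
      ENNReal.ofReal (κ * F ^ p * ((1 + L2 * Real.log k) / 2)) := by
  have hsk : 1 ≤ Real.sqrt k := Real.one_le_sqrt.2 hk
  set t0 : ℝ := F / Real.sqrt k with ht0
  have ht00 : 0 < t0 := by positivity
  have ht0F : t0 ≤ F := div_le_self hF.le hsk
  have hc1 : 0 ≤ κ * F ^ (p - 2) * k := by positivity
  have hc2 : 0 ≤ κ * F ^ (p - 2) * L2 * F ^ 2 := by positivity
  have hFp : F ^ (p - 2) * F ^ 2 = F ^ p := by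
    rw [← Real.rpow_two, ← Real.rpow_add hF]
    congr 1
    ring
  have h1 : ∫⁻ t in Set.Ioi (0 : ℝ), (Set.Ioc 0 t0).indicator
      (fun t => ENNReal.ofReal (κ * F ^ (p - 2) * k * t)) t =
      ENNReal.ofReal (κ * F ^ p / 2) := by
    rw [lintegral_indicator measurableSet_Ioc, Measure.restrict_restrict measurableSet_Ioc,
      Set.inter_eq_left.2 Set.Ioc_subset_Ioi_self, ← ofReal_integral_eq_lintegral_ofReal]
    · congr 1
      rw [← intervalIntegral.integral_of_le ht00.le, intervalIntegral.integral_const_mul,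
        integral_id, ht0, div_pow, Real.sq_sqrt (by linarith), ← hFp]
      field_simp
      ring
    · have : IntervalIntegrable (fun t : ℝ => κ * F ^ (p - 2) * k * t) volume 0 t0 :=
        (continuous_const.mul continuous_id).intervalIntegrable _ _
      exact (intervalIntegrable_iff_integrableOn_Ioc_of_le ht00.le).1 this
    · filter_upwards [ae_restrict_mem measurableSet_Ioc] with t ht
      exact mul_nonneg hc1 ht.1.le
  have h2 : ∫⁻ t in Set.Ioi (0 : ℝ), (Set.Ioc t0 F).indicator
      (fun t => ENNReal.ofReal (κ * F ^ (p - 2) * L2 * F ^ 2 * t⁻¹)) t =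
      ENNReal.ofReal (κ * F ^ p * (L2 * Real.log k) / 2) := by
    rw [lintegral_indicator measurableSet_Ioc, Measure.restrict_restrict measurableSet_Ioc,
      Set.inter_eq_left.2 (show Set.Ioc t0 F ⊆ Set.Ioi 0 from fun t ht => ht00.trans ht.1),
      ← ofReal_integral_eq_lintegral_ofReal]
    · congr 1
      have hlog : Real.log (F / t0) = Real.log k / 2 := by
        have : F / t0 = Real.sqrt k := by
          rw [ht0]; field_simp
        rw [this, Real.log_sqrt (by linarith)]
      rw [← intervalIntegral.integral_of_le ht0F, intervalIntegral.integral_const_mul,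
        integral_inv_of_pos ht00 hF, hlog, ← hFp]
      ring
    · have : IntervalIntegrable (fun t : ℝ => κ * F ^ (p - 2) * L2 * F ^ 2 * t⁻¹) volume t0 F := by
        refine ContinuousOn.intervalIntegrable ?_
        refine continuousOn_const.mul (continuousOn_inv₀.mono ?_)
        rw [Set.uIcc_of_le ht0F]
        intro t ht
        exact (ht00.trans_le ht.1).ne'
      exact (intervalIntegrable_iff_integrableOn_Ioc_of_le ht0F).1 this
    · filter_upwards [ae_restrict_mem measurableSet_Ioc] with t ht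
      exact mul_nonneg hc2 (inv_nonneg.2 (ht00.trans ht.1).le)
  rw [lintegral_add_left (by
    refine Measurable.indicator ?_ measurableSet_Ioc
    exact (measurable_const.mul measurable_id).ennreal_ofReal), h1, h2,
    ← ENNReal.ofReal_add (by positivity) (by
      have := Real.log_nonneg hk
      positivity)]
  refine ENNReal.ofReal_le_ofReal (le_of_eq ?_)
  ring

/-- from levels to powers -/
theorem layer {X : Type*} [MeasurableSpace X] (μI μJ : Measure X) [IsFiniteMeasure μI]
    [IsFiniteMeasure μJ] (G : X → ℝ) (hG : Measurable G) (hG0 : ∀ x, 0 ≤ G x) (F : ℝ) (hF : 0 < F)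
    (hGF : ∀ x, G x ≤ F) (τ κ k L2 : ℝ) (hτ : 0 ≤ τ) (hκ : 0 < κ) (hk : 1 ≤ k) (hL : 0 ≤ L2)
    (hlow : μI.real Set.univ ≤ k * κ)
    (hsamp : ∀ s : ℝ, 0 < s → μI.real {x | s * F < G x} ≤
      2 * τ * μJ.real {x | s / 4 * F < G x} + L2 * κ / s ^ 2) (p : ℝ) (hp : 2 ≤ p) :
    ∫⁻ x, ENNReal.ofReal (G x ^ p) ∂μI ≤
      ENNReal.ofReal (2 * τ * 4 ^ p) * ∫⁻ x, ENNReal.ofReal (G x ^ p) ∂μJ +
        ENNReal.ofReal (p * (κ * F ^ p * ((1 + L2 * Real.log k) / 2))) := by
  have hp0 : 0 < p := by linarith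
  have hp1 : 0 ≤ p - 1 := by linarith
  have hsk : 1 ≤ Real.sqrt k := Real.one_le_sqrt.2 hk
  rw [lintegral_rpow_eq_lintegral_meas_lt_mul μI (Filter.Eventually.of_forall hG0) hG.aemeasurable
    hp0]
  have h4 : ∫⁻ x, ENNReal.ofReal ((4 * G x) ^ p) ∂μJ =
      ENNReal.ofReal (4 ^ p) * ∫⁻ x, ENNReal.ofReal (G x ^ p) ∂μJ := by
    rw [← lintegral_const_mul _ (hG.pow_const p).ennreal_ofReal]
    refine lintegral_congr fun x => ?_
    rw [Real.mul_rpow (by norm_num) (hG0 x), ENNReal.ofReal_mul (by positivity)]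
  have h5 := lintegral_rpow_eq_lintegral_meas_lt_mul μJ
    (Filter.Eventually.of_forall fun x => mul_nonneg (by norm_num : (0 : ℝ) ≤ 4) (hG0 x))
    (hG.const_mul 4).aemeasurable hp0
  rw [h4] at h5
  have key : ∀ t ∈ Set.Ioi (0 : ℝ), μI {a | t < G a} * ENNReal.ofReal (t ^ (p - 1)) ≤
      ENNReal.ofReal (2 * τ) * (μJ {a | t < 4 * G a} * ENNReal.ofReal (t ^ (p - 1))) +
      ((Set.Ioc 0 (F / Real.sqrt k)).indicator
        (fun t => ENNReal.ofReal (κ * F ^ (p - 2) * k * t)) t +
      (Set.Ioc (F / Real.sqrt k) F).indicator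
        (fun t => ENNReal.ofReal (κ * F ^ (p - 2) * L2 * F ^ 2 * t⁻¹)) t) := by
    intro t ht
    have ht0 : 0 < t := ht
    have hI : μI {a | t < G a} = ENNReal.ofReal (μI.real {a | t < G a}) := by
      rw [Measure.real, ENNReal.ofReal_toReal (measure_ne_top _ _)]
    have hJ : μJ {a | t < 4 * G a} = ENNReal.ofReal (μJ.real {a | t < 4 * G a}) := by
      rw [Measure.real, ENNReal.ofReal_toReal (measure_ne_top _ _)]
    by_cases htF : F < t
    · have : {a | t < G a} = ∅ := by
        ext a
        simp only [Set.mem_ofPred_eq, Set.mem_empty_iff_false, iff_false, not_lt]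
        exact (hGF a).trans htF.le
      rw [this, measure_empty, zero_mul]
      exact zero_le
    push Not at htF
    have htp : t ^ (p - 1) ≤ F ^ (p - 2) * t := by
      have : t ^ (p - 1) = t ^ (p - 2) * t := by
        rw [← Real.rpow_add_one ht0.ne']
        congr 1
        ring
      rw [this]
      exact mul_le_mul_of_nonneg_right (Real.rpow_le_rpow ht0.le htF (by linarith)) ht0.le
    by_cases htl : t ≤ F / Real.sqrt k
    · rw [Set.indicator_of_mem (show t ∈ Set.Ioc 0 (F / Real.sqrt k) from ⟨ht0, htl⟩),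
        Set.indicator_of_notMem (fun h => absurd h.1 (not_lt.2 htl)), add_zero]
      refine le_trans ?_ le_add_self
      rw [hI, ← ENNReal.ofReal_mul measureReal_nonneg]
      refine ENNReal.ofReal_le_ofReal ?_
      have h6 : μI.real {a | t < G a} ≤ k * κ :=
        (measureReal_mono (Set.subset_univ _)).trans hlow
      calc μI.real {a | t < G a} * t ^ (p - 1) ≤ (k * κ) * (F ^ (p - 2) * t) :=
            mul_le_mul h6 htp (by positivity) (by positivity)
        _ = _ := by ring
    · push Not at htl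
      rw [Set.indicator_of_notMem (fun h => absurd h.2 (not_le.2 htl)),
        Set.indicator_of_mem (show t ∈ Set.Ioc (F / Real.sqrt k) F from ⟨htl, htF⟩), zero_add]
      have h6 := hsamp (t / F) (by positivity)
      have e1 : t / F * F = t := by field_simp
      have e2 : {x | t / F / 4 * F < G x} = {x | t < 4 * G x} := by
        ext x
        simp only [Set.mem_ofPred_eq]
        have : t / F / 4 * F = t / 4 := by field_simp
        rw [this]
        constructor <;> intro h <;> linarith
      rw [e1, e2] at h6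
      have hJ0 : 0 ≤ μJ.real {x | t < 4 * G x} := measureReal_nonneg
      rw [hI, hJ, ← ENNReal.ofReal_mul measureReal_nonneg, ← ENNReal.ofReal_mul hJ0,
        ← ENNReal.ofReal_mul (by positivity), ← ENNReal.ofReal_add (by positivity) (by positivity)]
      refine ENNReal.ofReal_le_ofReal ?_
      have htp1 : 0 < t ^ (p - 1) := by positivity
      have h7 := mul_le_mul_of_nonneg_right h6 htp1.le
      have h8 : L2 * κ / (t / F) ^ 2 * t ^ (p - 1) ≤ κ * F ^ (p - 2) * L2 * F ^ 2 * t⁻¹ := by
        calc L2 * κ / (t / F) ^ 2 * t ^ (p - 1) ≤ L2 * κ / (t / F) ^ 2 * (F ^ (p - 2) * t) :=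
              mul_le_mul_of_nonneg_left htp (by positivity)
          _ = _ := by field_simp
      calc μI.real {a | t < G a} * t ^ (p - 1) ≤
            (2 * τ * μJ.real {x | t < 4 * G x} + L2 * κ / (t / F) ^ 2) * t ^ (p - 1) := h7
        _ = 2 * τ * (μJ.real {x | t < 4 * G x} * t ^ (p - 1)) +
            L2 * κ / (t / F) ^ 2 * t ^ (p - 1) := by ring
        _ ≤ _ := by linarith
  have hmono := setLIntegral_mono' (μ := volume) measurableSet_Ioi key
  have hmeas : Measurable fun t : ℝ => μJ {a | t < 4 * G a} * ENNReal.ofReal (t ^ (p - 1)) := by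
    refine Measurable.mul ?_ ((measurable_id.pow_const (p - 1)).ennreal_ofReal)
    refine Antitone.measurable fun s t hst => ?_
    exact measure_mono fun a ha => lt_of_le_of_lt hst ha
  rw [lintegral_add_left (hmeas.const_mul _), lintegral_const_mul _ hmeas] at hmono
  have hb := hbound p F k κ L2 hp hF hk hκ hL
  calc ENNReal.ofReal p * ∫⁻ t in Set.Ioi 0, μI {a | t < G a} * ENNReal.ofReal (t ^ (p - 1))
      ≤ ENNReal.ofReal p * (ENNReal.ofReal (2 * τ) *
          (∫⁻ t in Set.Ioi 0, μJ {a | t < 4 * G a} * ENNReal.ofReal (t ^ (p - 1))) +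
          ENNReal.ofReal (κ * F ^ p * ((1 + L2 * Real.log k) / 2))) :=
        mul_le_mul' le_rfl (hmono.trans (add_le_add le_rfl hb))
    _ = ENNReal.ofReal (2 * τ) * (ENNReal.ofReal p *
          (∫⁻ t in Set.Ioi 0, μJ {a | t < 4 * G a} * ENNReal.ofReal (t ^ (p - 1)))) +
          ENNReal.ofReal p * ENNReal.ofReal (κ * F ^ p * ((1 + L2 * Real.log k) / 2)) := by
        ring
    _ = _ := by
        rw [← h5, ← mul_assoc, ← ENNReal.ofReal_mul (by positivity),
          ← ENNReal.ofReal_mul hp0.le]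

end Pool.Agent.J6H90.RG
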