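import Pool.Agent.J6H90.RG.Lp
import Pool.Agent.N248.RC.Low

set_option autoImplicit false
set_option linter.unusedSectionVars false

/-!
# Random regions: norms
-/

namespace Pool.Agent.J6H90.RG

open Finset MeasureTheory
open Pool.Agent.N248.RC
open scoped RealInnerProductSpace ENNReal

theorem lint_ofReal (G : E 3 → ℂ) (p : ℝ) (hp : 0 < p) (μ : Measure (E 3)) :
    ∫⁻ x, ‖G x‖ₑ ^ p ∂μ = ∫⁻ x, ENNReal.ofReal (‖G x‖ ^ p) ∂μ := by
  refine lintegral_congr fun x => ?_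
  rw [← ofReal_norm, ENNReal.ofReal_rpow_of_nonneg (norm_nonneg _) hp.le]

theorem eLp (G : E 3 → ℂ) (p : ℝ) (hp : 0 < p) (μ : Measure (E 3)) :
    eLpNorm G (ENNReal.ofReal p) μ = (∫⁻ x, ENNReal.ofReal (‖G x‖ ^ p) ∂μ) ^ (1 / p) := by
  rw [eLpNorm_eq_lintegral_rpow_enorm_toReal (by
      rw [Ne, ENNReal.ofReal_eq_zero, not_le]; exact hp) ENNReal.ofReal_ne_top,
    ENNReal.toReal_ofReal hp.le, lint_ofReal G p hp]

theorem eL1 (U : Set (E 2)) (f : E 2 → ℂ) (hf : IntegrableOn f U) :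
    eLpNorm f 1 (volume.restrict U) = ENNReal.ofReal (∫ x in U, ‖f x‖) := by
  rw [eLpNorm_one_eq_lintegral_enorm, ofReal_integral_norm_eq_lintegral_enorm hf]

/-- **The norm of one extension on a typical region.** -/
theorem lp_of_samp (C B R κ N : ℝ) (k : ℕ) (hC : 0 ≤ C) (hB : 0 ≤ B) (hR : 2 ≤ R) (hκ : 0 < κ)
    (hN : 0 < N) (hk : 1 ≤ k) (hkR : (k : ℝ) ≤ R ^ B) (YJ YI : Set (E 3))
    (hYI : MeasurableSet YI) (hYJ : MeasurableSet YJ) (hYJR : YJ ⊆ Metric.ball 0 R)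
    (hIJ : YI ⊆ YJ) (hYIκ : volume.real YI ≤ k * κ) (h : Samp C R κ N k YJ YI)
    (U : Set (E 2)) (hU : MeasurableSet U) (hUb : U ⊆ Metric.ball 0 (1 / 2)) (f : E 2 → ℂ)
    (hf : IntegrableOn f U) (p : ℝ) (hp : 2 ≤ p) :
    eLpNorm (ext U f) (ENNReal.ofReal p) (volume.restrict YI) ≤
      ENNReal.ofReal (8 * (k / N) ^ (1 / p)) *
          eLpNorm (ext U f) (ENNReal.ofReal p) (volume.restrict YJ) +
        ENNReal.ofReal (3 * (24 + C * B) * Real.log R ^ 2 * κ ^ (1 / p)) *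
          eLpNorm f 1 (volume.restrict U) := by
  have hp0 : 0 < p := by linarith
  have hR0 : (0 : ℝ) < R := by linarith
  have hℓ := log_half R hR
  have hk1 : (1 : ℝ) ≤ k := by exact_mod_cast hk
  have hlogk : 0 ≤ Real.log k := Real.log_nonneg hk1
  have hfinJ : volume YJ ≠ ⊤ := ((measure_mono hYJR).trans_lt measure_ball_lt_top).ne
  have hfinI : volume YI ≠ ⊤ := ((measure_mono hIJ).trans_lt hfinJ.lt_top).ne
  have i1 : IsFiniteMeasure ((volume : Measure (E 3)).restrict YJ) :=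
    ⟨by rw [Measure.restrict_apply_univ]; exact hfinJ.lt_top⟩
  have i2 : IsFiniteMeasure ((volume : Measure (E 3)).restrict YI) :=
    ⟨by rw [Measure.restrict_apply_univ]; exact hfinI.lt_top⟩
  rw [eL1 U f hf]
  set F : ℝ := ∫ x in U, ‖f x‖ with hF
  have hF0 : 0 ≤ F := integral_nonneg fun x => norm_nonneg _
  rcases hF0.eq_or_lt with hF00 | hFpos
  · have hz : ext U f = 0 := by
      ext ξ
      have := ext_norm U f ξ
      rw [← hF, ← hF00] at this
      simpa using this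
    rw [hz, eLpNorm_zero]
    exact zero_le
  have hm : Measurable fun ξ => ‖ext U f ξ‖ := (ext_meas U f hf).norm
  set L2 : ℝ := C * Real.log R ^ 2 with hL2
  have hL20 : 0 ≤ L2 := by positivity
  have hset : ∀ c : ℝ, MeasurableSet {ξ | c < ‖ext U f ξ‖} :=
    fun c => measurableSet_lt measurable_const hm
  have hres : ∀ (S : Set (E 3)) (c : ℝ), (volume.restrict S).real {ξ | c < ‖ext U f ξ‖} =
      volume.real (S ∩ {ξ | c < ‖ext U f ξ‖}) := by
    intro S c
    rw [measureReal_restrict_apply (hset c), Set.inter_comm]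
  have hlay := layer (volume.restrict YI) (volume.restrict YJ) (fun ξ => ‖ext U f ξ‖) hm
    (fun ξ => norm_nonneg _) F hFpos (ext_norm U f) (k / N) κ k L2 (by positivity) hκ hk1 hL20
    (by rw [measureReal_restrict_apply MeasurableSet.univ, Set.univ_inter]; exact hYIκ)
    (fun s hs => by
      have := h U hU hUb f hf s hs
      rw [← hF] at this
      rw [hres, hres]
      exact this) p hp
  rw [eLp _ p hp0, eLp _ p hp0]
  set IA := ∫⁻ ξ, ENNReal.ofReal (‖ext U f ξ‖ ^ p) ∂(volume.restrict YI) with hIA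
  set IB := ∫⁻ ξ, ENNReal.ofReal (‖ext U f ξ‖ ^ p) ∂(volume.restrict YJ) with hIB
  have h1p : 0 ≤ 1 / p := by positivity
  have h1p1 : 1 / p ≤ 1 := by rw [div_le_one hp0]; linarith
  have h1p2 : 1 / p ≤ 1 / 2 := by
    rw [div_le_div_iff₀ hp0 (by norm_num)]; linarith
  have hroot := (ENNReal.rpow_le_rpow hlay h1p).trans (ENNReal.rpow_add_le_add_rpow _ _ h1p h1p1)
  refine hroot.trans (add_le_add ?_ ?_)
  · rw [ENNReal.mul_rpow_of_nonneg _ _ h1p]
    refine mul_le_mul' ?_ le_rfl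
    rw [ENNReal.ofReal_rpow_of_nonneg (by positivity) h1p]
    refine ENNReal.ofReal_le_ofReal ?_
    rw [Real.mul_rpow (by positivity) (by positivity), Real.mul_rpow (by norm_num) (by positivity),
      ← Real.rpow_mul (by norm_num : (0 : ℝ) ≤ 4), mul_one_div_cancel hp0.ne', Real.rpow_one]
    have h2 : (2 : ℝ) ^ (1 / p) ≤ 2 := by
      calc (2 : ℝ) ^ (1 / p) ≤ 2 ^ (1 : ℝ) :=
            Real.rpow_le_rpow_of_exponent_le (by norm_num) h1p1
        _ = 2 := Real.rpow_one _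
    have h3 : 0 ≤ ((k : ℝ) / N) ^ (1 / p) := by positivity
    nlinarith
  · rw [ENNReal.ofReal_rpow_of_nonneg (by positivity) h1p, ← ENNReal.ofReal_mul (by positivity)]
    refine ENNReal.ofReal_le_ofReal ?_
    have e1 : (p * (κ * F ^ p * ((1 + L2 * Real.log k) / 2))) ^ (1 / p) =
        p ^ (1 / p) * (κ ^ (1 / p) * F * ((1 + L2 * Real.log k) / 2) ^ (1 / p)) := by
      rw [Real.mul_rpow (by positivity) (by positivity), Real.mul_rpow (by positivity)
        (by positivity), Real.mul_rpow hκ.le (by positivity), ← Real.rpow_mul hFpos.le,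
        mul_one_div_cancel hp0.ne', Real.rpow_one]
    have h4 : p ^ (1 / p) ≤ 3 := by
      have h5 : p ≤ Real.exp p := by linarith [Real.add_one_le_exp p]
      calc p ^ (1 / p) ≤ (Real.exp p) ^ (1 / p) := Real.rpow_le_rpow hp0.le h5 h1p
        _ = Real.exp 1 := by
            rw [← Real.exp_mul, mul_one_div_cancel hp0.ne']
        _ ≤ 3 := by
            have := Real.exp_one_lt_d9
            linarith
    have h6 : ((1 + L2 * Real.log k) / 2) ^ (1 / p) ≤ (24 + C * B) * Real.log R ^ 2 := by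
      have hlk : Real.log k ≤ B * Real.log R := by
        have := Real.log_le_log (by linarith) hkR
        rwa [Real.log_rpow hR0] at this
      have hx0 : 0 ≤ (1 + L2 * Real.log k) / 2 := by positivity
      have hx1 : (1 + L2 * Real.log k) / 2 + 1 ≤ ((24 + C * B) * Real.log R ^ 2) ^ 2 := by
        have h7 : L2 * Real.log k ≤ C * B * Real.log R ^ 3 := by
          calc L2 * Real.log k ≤ L2 * (B * Real.log R) := mul_le_mul_of_nonneg_left hlk hL20
            _ = _ := by rw [hL2]; ring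
        have h8 : (1 : ℝ) ≤ 16 * Real.log R ^ 4 := by
          have : (1 / 2 : ℝ) ^ 4 ≤ Real.log R ^ 4 := pow_le_pow_left₀ (by norm_num) hℓ 4
          norm_num at this
          linarith
        have h9 : Real.log R ^ 3 ≤ 2 * Real.log R ^ 4 := by
          have : 0 ≤ Real.log R ^ 3 := by positivity
          nlinarith
        have hCB : 0 ≤ C * B := by positivity
        have h10 : C * B * Real.log R ^ 3 ≤ 2 * (C * B) * Real.log R ^ 4 := by
          calc C * B * Real.log R ^ 3 ≤ C * B * (2 * Real.log R ^ 4) :=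
                mul_le_mul_of_nonneg_left h9 hCB
            _ = _ := by ring
        have h11 : (24 + C * B) * Real.log R ^ 4 ≤ ((24 + C * B) * Real.log R ^ 2) ^ 2 := by
          have : ((24 + C * B) * Real.log R ^ 2) ^ 2 = (24 + C * B) ^ 2 * Real.log R ^ 4 := by ring
          rw [this]
          refine mul_le_mul_of_nonneg_right ?_ (by positivity)
          nlinarith
        nlinarith
      calc ((1 + L2 * Real.log k) / 2) ^ (1 / p) ≤ ((1 + L2 * Real.log k) / 2 + 1) ^ (1 / p) :=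
            Real.rpow_le_rpow hx0 (by linarith) h1p
        _ ≤ ((1 + L2 * Real.log k) / 2 + 1) ^ (1 / 2 : ℝ) :=
            Real.rpow_le_rpow_of_exponent_le (by linarith) h1p2
        _ ≤ (((24 + C * B) * Real.log R ^ 2) ^ 2) ^ (1 / 2 : ℝ) :=
            Real.rpow_le_rpow (by linarith) hx1 (by norm_num)
        _ = _ := by
            rw [← Real.sqrt_eq_rpow, Real.sqrt_sq (by positivity)]
    rw [e1]
    have h12 : 0 ≤ κ ^ (1 / p) * F := by positivity
    calc p ^ (1 / p) * (κ ^ (1 / p) * F * ((1 + L2 * Real.log k) / 2) ^ (1 / p)) ≤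
          3 * (κ ^ (1 / p) * F * ((24 + C * B) * Real.log R ^ 2)) :=
          mul_le_mul h4 (mul_le_mul_of_nonneg_left h6 h12) (by positivity) (by norm_num)
      _ = _ := by ring

theorem le_opNorm (U : Set (E 2)) (Y : Set (E 3)) (q p : ℝ) (f : E 2 → ℂ) (hf : Measurable f)
    (hf1 : eLpNorm f (ENNReal.ofReal q) (volume.restrict U) ≤ 1) :
    eLpNorm (ext U f) (ENNReal.ofReal p) (volume.restrict Y) ≤ opNorm U Y q p :=
  le_iSup₂ (f := fun (f : E 2 → ℂ)
    (_ : Measurable f ∧ eLpNorm f (ENNReal.ofReal q) (volume.restrict U) ≤ 1) =>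
    eLpNorm (ext U f) (ENNReal.ofReal p) (volume.restrict Y)) f ⟨hf, hf1⟩

theorem opNorm_le (U : Set (E 2)) (Y : Set (E 3)) (q p : ℝ) (X : ℝ≥0∞)
    (h : ∀ f : E 2 → ℂ, Measurable f → eLpNorm f (ENNReal.ofReal q) (volume.restrict U) ≤ 1 →
      eLpNorm (ext U f) (ENNReal.ofReal p) (volume.restrict Y) ≤ X) : opNorm U Y q p ≤ X :=
  iSup₂_le fun f hf => h f hf.1 hf.2

theorem opNorm_mono (U : Set (E 2)) (Y Z : Set (E 3)) (h : Y ⊆ Z) (q p : ℝ) :
    opNorm U Y q p ≤ opNorm U Z q p :=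
  opNorm_le U Y q p _ fun f hf hf1 =>
    (eLpNorm_mono_measure _ (Measure.restrict_mono h le_rfl)).trans (le_opNorm U Z q p f hf hf1)

theorem U_fin (U : Set (E 2)) (hUb : U ⊆ Metric.ball 0 (1 / 2)) :
    IsFiniteMeasure ((volume : Measure (E 2)).restrict U) :=
  ⟨by rw [Measure.restrict_apply_univ]
      exact (measure_mono hUb).trans_lt measure_ball_lt_top⟩

theorem adm_L1 (U : Set (E 2)) (q : ℝ) (hq : 1 ≤ q) (f : E 2 → ℂ) (hf : Measurable f)
    (hf1 : eLpNorm f (ENNReal.ofReal q) (volume.restrict U) ≤ 1) :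
    eLpNorm f 1 (volume.restrict U) ≤ volume U ^ (1 - 1 / q) := by
  have hq1 : (1 : ℝ≥0∞) ≤ ENNReal.ofReal q := by
    rw [← ENNReal.ofReal_one]; exact ENNReal.ofReal_le_ofReal hq
  have h := eLpNorm_le_eLpNorm_mul_rpow_measure_univ (μ := volume.restrict U) hq1
    hf.aestronglyMeasurable
  rw [Measure.restrict_apply_univ, ENNReal.toReal_one, ENNReal.toReal_ofReal (by linarith),
    div_one] at h
  refine h.trans ?_
  calc _ ≤ 1 * volume U ^ (1 - 1 / q) := mul_le_mul' hf1 le_rfl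
    _ = _ := one_mul _

theorem adm_int (U : Set (E 2)) (hUb : U ⊆ Metric.ball 0 (1 / 2)) (q : ℝ) (hq : 1 ≤ q)
    (f : E 2 → ℂ) (hf : Measurable f)
    (hf1 : eLpNorm f (ENNReal.ofReal q) (volume.restrict U) ≤ 1) : IntegrableOn f U := by
  have := U_fin U hUb
  have h : MemLp f (ENNReal.ofReal q) (volume.restrict U) :=
    ⟨hf.aestronglyMeasurable, hf1.trans_lt ENNReal.one_lt_top⟩
  refine h.integrable ?_
  rw [← ENNReal.ofReal_one]
  exact ENNReal.ofReal_le_ofReal hq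

/-- **The norm of the extension operator on a typical region.** -/
theorem op_of_samp (C B R κ N : ℝ) (k : ℕ) (hC : 0 ≤ C) (hB : 0 ≤ B) (hR : 2 ≤ R) (hκ : 0 < κ)
    (hN : 0 < N) (hk : 1 ≤ k) (hkR : (k : ℝ) ≤ R ^ B) (YJ YI : Set (E 3))
    (hYI : MeasurableSet YI) (hYJ : MeasurableSet YJ) (hYJR : YJ ⊆ Metric.ball 0 R)
    (hIJ : YI ⊆ YJ) (hYIκ : volume.real YI ≤ k * κ) (h : Samp C R κ N k YJ YI)
    (U : Set (E 2)) (hU : MeasurableSet U) (hUb : U ⊆ Metric.ball 0 (1 / 2)) (q p : ℝ)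
    (hq : 1 ≤ q) (hp : 2 ≤ p) :
    opNorm U YI q p ≤ ENNReal.ofReal (8 * (k / N) ^ (1 / p)) * opNorm U YJ q p +
        ENNReal.ofReal (3 * (24 + C * B) * Real.log R ^ 2 * κ ^ (1 / p)) *
          volume U ^ (1 - 1 / q) := by
  refine opNorm_le U YI q p _ fun f hf hf1 => ?_
  refine (lp_of_samp C B R κ N k hC hB hR hκ hN hk hkR YJ YI hYI hYJ hYJR hIJ hYIκ h U hU hUb f
    (adm_int U hUb q hq f hf hf1) p hp).trans ?_
  exact add_le_add (mul_le_mul' le_rfl (le_opNorm U YJ q p f hf hf1))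
    (mul_le_mul' le_rfl (adm_L1 U q hq f hf hf1))

/-! ### Lower bounds -/

theorem choose_div (N k : ℕ) (hk : 1 ≤ k) (hkN : k ≤ N) :
    ((N - 1).choose (k - 1) : ℝ) = k / N * (N.choose k : ℝ) := by
  obtain ⟨k', rfl⟩ : ∃ k', k = k' + 1 := ⟨k - 1, by omega⟩
  obtain ⟨N', rfl⟩ : ∃ N', N = N' + 1 := ⟨N - 1, by omega⟩
  have h := Nat.add_one_mul_choose_eq N' k'
  simp only [Nat.add_sub_cancel]
  have h2 : ((N' + 1 : ℕ) : ℝ) * (N'.choose k' : ℝ) =
      ((N' + 1).choose (k' + 1) : ℝ) * ((k' + 1 : ℕ) : ℝ) := by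
    exact_mod_cast h
  have hN : ((N' + 1 : ℕ) : ℝ) ≠ 0 := by positivity
  field_simp
  linarith

variable {α : Type*} [DecidableEq α]

/-- averaging over the sets of `k` cells -/
theorem avg_int (J : Finset α) (k : ℕ) (hk : 1 ≤ k) (θ : α → Set (E 3))
    (hθ : ∀ i ∈ J, MeasurableSet (θ i)) (hd : (J : Set α).PairwiseDisjoint θ)
    (G : E 3 → ℝ≥0∞) :
    ∑ I ∈ powersetCard k J, ∫⁻ ξ in un θ I, G ξ =
      ((J.card - 1).choose (k - 1) : ℕ) * ∫⁻ ξ in un θ J, G ξ := by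
  classical
  have hun : ∀ I ⊆ J, ∫⁻ ξ in un θ I, G ξ = ∑ i ∈ I, ∫⁻ ξ in θ i, G ξ := by
    intro I hI
    unfold un
    exact lintegral_biUnion_finset (fun i hi j hj hij => hd (hI hi) (hI hj) hij)
      (fun i hi => hθ i (hI hi)) G
  rw [hun J subset_rfl, sum_congr rfl fun I hI => hun I (mem_powersetCard.1 hI).1]
  have h1 : ∀ I ∈ powersetCard k J, ∑ i ∈ I, ∫⁻ ξ in θ i, G ξ =
      ∑ i ∈ J, if i ∈ I then ∫⁻ ξ in θ i, G ξ else 0 := by
    intro I hI
    rw [← sum_filter]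
    refine sum_congr ?_ fun _ _ => rfl
    ext i
    simp only [mem_filter]
    exact ⟨fun h => ⟨(mem_powersetCard.1 hI).1 h, h⟩, fun h => h.2⟩
  rw [sum_congr rfl h1, sum_comm, mul_sum]
  refine sum_congr rfl fun i hi => ?_
  rw [← sum_filter, sum_const, nsmul_eq_mul]
  congr 2
  exact card_mem J k hk i hi

end Pool.Agent.J6H90.RG
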