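import Pool.Agent.J6H90.RG.Lev

set_option autoImplicit false
set_option linter.unusedSectionVars false

/-!
# Random regions: the level sets are sampled faithfully, for all functions at once
-/

namespace Pool.Agent.J6H90.RG

open Finset MeasureTheory
open Pool.Agent.N248.RC
open scoped RealInnerProductSpace

/-- the level sets of all the extensions are sampled faithfully -/
def Samp (C R κ N k : ℝ) (YJ YI : Set (E 3)) : Prop :=
  ∀ U : Set (E 2), MeasurableSet U → U ⊆ Metric.ball 0 (1 / 2) → ∀ f : E 2 → ℂ,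
    IntegrableOn f U → ∀ s : ℝ, 0 < s →
    volume.real (YI ∩ {ξ | s * ∫ x in U, ‖f x‖ < ‖ext U f ξ‖}) ≤
      2 * (k / N) * volume.real (YJ ∩ {ξ | s / 4 * ∫ x in U, ‖f x‖ < ‖ext U f ξ‖}) +
        C * Real.log R ^ 2 * κ / s ^ 2

theorem ext_norm (U : Set (E 2)) (f : E 2 → ℂ) (ξ : E 3) :
    ‖ext U f ξ‖ ≤ ∫ x in U, ‖f x‖ := by
  unfold ext
  refine (norm_integral_le_integral_norm _).trans (le_of_eq ?_)
  refine integral_congr_ae (Filter.Eventually.of_forall fun x => ?_)
  simp only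
  rw [norm_mul, ek_norm, one_mul]

theorem ext_smul (U : Set (E 2)) (f : E 2 → ℂ) (c : ℂ) (ξ : E 3) :
    ext U (fun x => c * f x) ξ = c * ext U f ξ := by
  unfold ext
  rw [← integral_const_mul]
  refine integral_congr_ae (Filter.Eventually.of_forall fun x => ?_)
  simp only
  ring

theorem ext_meas (U : Set (E 2)) (f : E 2 → ℂ) (hf : IntegrableOn f U) : Measurable (ext U f) := by
  obtain ⟨g, hg, hfg⟩ := hf.aestronglyMeasurable
  have e : ext U f = ext U g := by
    ext ξ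
    unfold ext
    refine integral_congr_ae ?_
    filter_upwards [hfg] with x hx
    rw [hx]
  rw [e]
  have h1 : Measurable (fun z : E 3 × E 2 =>
      Complex.exp (-((⟪Phi z.2, z.1⟫ : ℝ) : ℂ) * Complex.I) * g z.2) := by
    have h2 : Measurable fun z : E 3 × E 2 => ⟪Phi z.2, z.1⟫ :=
      (Phi_meas.comp measurable_snd).inner measurable_fst
    exact (Complex.measurable_exp.comp ((Complex.measurable_ofReal.comp h2).neg.mul_const _)).mul
      (hg.measurable.comp measurable_snd)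
  exact h1.stronglyMeasurable.integral_prod_right.measurable

variable {α : Type*} [DecidableEq α]

theorem un_meas (θ : α → Set (E 3)) (J : Finset α) (h : ∀ i ∈ J, MeasurableSet (θ i)) :
    MeasurableSet (un θ J) := by
  unfold un
  exact Finset.measurableSet_biUnion _ h

theorem un_sub (θ : α → Set (E 3)) (I J : Finset α) (h : I ⊆ J) : un θ I ⊆ un θ J := by
  unfold un
  exact Set.biUnion_subset_biUnion_left fun i hi => h hi

theorem un_ball (θ : α → Set (E 3)) (J : Finset α) (R : ℝ)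
    (h : ∀ i ∈ J, θ i ⊆ Metric.ball 0 R) : un θ J ⊆ Metric.ball 0 R := by
  unfold un
  exact Set.iUnion₂_subset h

theorem un_vol (θ : α → Set (E 3)) (J : Finset α) (κ : ℝ)
    (h : ∀ i ∈ J, volume.real (θ i) ≤ κ) : volume.real (un θ J) ≤ J.card * κ := by
  unfold un
  refine (measureReal_biUnion_finset_le J θ).trans ?_
  refine (Finset.sum_le_sum h).trans (le_of_eq ?_)
  rw [Finset.sum_const, nsmul_eq_mul]

theorem samp_of_good (R : ℝ) (hR : 2 ≤ R) (J : Finset α) (k : ℕ) (hk : 1 ≤ k)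
    (θ : α → Set (E 3)) (hθ : ∀ i ∈ J, MeasurableSet (θ i))
    (hθR : ∀ i ∈ J, θ i ⊆ Metric.ball 0 R) (κ : ℝ) (hκ : 0 < κ)
    (hθκ : ∀ i ∈ J, volume.real (θ i) ≤ κ)
    (ρ : ℝ) (hρ : 0 < ρ) (hρ1 : 2 * ρ ≤ 1) (M : ℕ)
    (hM : 1 ≤ M * ρ) (hρk : 3 * R * (2 * ρ) ≤ 1 / (16 * Real.sqrt k)) (Lg Li a : ℝ) (hLg : 1 ≤ Lg)
    (hLi : 0 ≤ Li) (ha : 0 ≤ a)
    (hexc : 4 * (volume.restrict (un θ J)).real Set.univ * Real.exp (-Lg) ≤ κ)
    [IsFiniteMeasure (volume.restrict (un θ J))]
    (I : Finset α) (hIJ : I ∈ powersetCard k J)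
    (hI : GoodI (volume.restrict (un θ J)) J k θ κ (Ab R ρ M) Lg Li a I)
    (C : ℝ) (hC1 : 1 ≤ C * Real.log R ^ 2)
    (hC : 17412 * Lg * Li + a + 3 ≤ C * Real.log R ^ 2) :
    Samp C R κ J.card k (un θ J) (un θ I) := by
  intro U hU hUb f hf s hs
  obtain ⟨hIJ1, hIJ2⟩ := mem_powersetCard.1 hIJ
  have hYJ := un_meas θ J hθ
  have hYI := un_meas θ I fun i hi => hθ i (hIJ1 hi)
  have hYJb := un_ball θ J R hθR
  have hYIJ := un_sub θ I J hIJ1
  have hfin : ∀ S : Set (E 3), S ⊆ Metric.ball 0 R → volume S ≠ ⊤ := fun S hS =>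
    ((measure_mono hS).trans_lt measure_ball_lt_top).ne
  set F : ℝ := ∫ x in U, ‖f x‖ with hF
  have hF0 : 0 ≤ F := integral_nonneg fun x => norm_nonneg _
  have hm : Measurable fun ξ => ‖ext U f ξ‖ := (ext_meas U f hf).norm
  have hlog : 0 ≤ C * Real.log R ^ 2 := by linarith
  have hr1 : 0 ≤ 2 * ((k : ℝ) / J.card) *
      volume.real (un θ J ∩ {ξ | s / 4 * F < ‖ext U f ξ‖}) := by
    have : (0 : ℝ) ≤ volume.real (un θ J ∩ {ξ | s / 4 * F < ‖ext U f ξ‖}) := measureReal_nonneg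
    positivity
  have hr2 : 0 ≤ C * Real.log R ^ 2 * κ / s ^ 2 := by positivity
  by_cases hs1 : 1 ≤ s
  · have : un θ I ∩ {ξ | s * F < ‖ext U f ξ‖} = ∅ := by
      ext ξ
      simp only [Set.mem_inter_iff, Set.mem_ofPred_eq, Set.mem_empty_iff_false, iff_false, not_and,
        not_lt]
      intro _
      refine (ext_norm U f ξ).trans ?_
      rw [← hF]
      nlinarith
    rw [this, measureReal_empty]
    linarith
  push Not at hs1
  rcases hF0.eq_or_lt with hF00 | hFpos
  · have : un θ I ∩ {ξ | s * F < ‖ext U f ξ‖} = ∅ := by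
      ext ξ
      simp only [Set.mem_inter_iff, Set.mem_ofPred_eq, Set.mem_empty_iff_false, iff_false, not_and,
        not_lt]
      intro _
      refine (ext_norm U f ξ).trans ?_
      rw [← hF, ← hF00, mul_zero]
    rw [this, measureReal_empty]
    linarith
  obtain ⟨n, hn1, hn2⟩ := exists_nat_pow_near_of_lt_one hs hs1.le (show (0 : ℝ) < 1 / 2 by norm_num)
    (show (1 / 2 : ℝ) < 1 by norm_num)
  have h4n : (4 : ℝ) ^ n ≤ 1 / s ^ 2 := by
    rw [le_div_iff₀ (by positivity)]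
    have h1 : s ^ 2 ≤ ((1 / 2 : ℝ) ^ n) ^ 2 := pow_le_pow_left₀ hs.le hn2 2
    have h2 : ((1 / 2 : ℝ) ^ n) ^ 2 = ((4 : ℝ) ^ n)⁻¹ := by
      rw [← pow_mul, mul_comm, pow_mul, ← inv_pow]
      norm_num
    rw [h2] at h1
    have h3 : (0 : ℝ) < 4 ^ n := by positivity
    calc (4 : ℝ) ^ n * s ^ 2 ≤ 4 ^ n * ((4 : ℝ) ^ n)⁻¹ := mul_le_mul_of_nonneg_left h1 h3.le
      _ = 1 := mul_inv_cancel₀ h3.ne'
  by_cases hnK : n < Nat.clog 4 k
  · -- the sampled levels
    set g : E 2 → ℂ := fun x => ((F⁻¹ : ℝ) : ℂ) * f x with hg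
    have hgi : Integrable g (volume.restrict U) := hf.const_mul _
    have hg1 : ∫ x in U, ‖g x‖ ≤ 1 := by
      have : ∀ x, ‖g x‖ = F⁻¹ * ‖f x‖ := by
        intro x
        rw [hg]
        simp only
        rw [norm_mul, Complex.norm_real, Real.norm_of_nonneg (by positivity)]
      simp_rw [this]
      rw [integral_const_mul, ← hF, inv_mul_cancel₀ hFpos.ne']
    have h := lv (volume.restrict (un θ J)) R (by linarith) J k hk θ κ hκ ρ hρ hρ1 M hM hρk Lg Li a
      hLg hLi ha hexc I hIJ hI U hU hUb g hgi hg1 n hnK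
    have hgext : ∀ ξ ∈ Metric.ball (0 : E 3) R,
        ‖tr (volume.restrict U) (kr R) g ξ‖ = F⁻¹ * ‖ext U f ξ‖ := by
      intro ξ hξ
      rw [tr_eq R U g ξ hξ, hg, ext_smul, norm_mul, Complex.norm_real,
        Real.norm_of_nonneg (by positivity)]
    have htm : Measurable fun ξ => ‖tr (volume.restrict U) (kr R) g ξ‖ := by
      obtain ⟨g₁, hg₁, hgg⟩ := hgi.aestronglyMeasurable
      have e : tr (volume.restrict U) (kr R) g = tr (volume.restrict U) (kr R) g₁ := by
        ext ξ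
        unfold tr
        refine integral_congr_ae ?_
        filter_upwards [hgg] with x hx
        rw [hx]
      rw [e]
      have : IsFiniteMeasure ((volume : Measure (E 2)).restrict U) :=
        ⟨by rw [Measure.restrict_apply_univ]
            exact (measure_mono hUb).trans_lt measure_ball_lt_top⟩
      exact (tr_meas (volume.restrict U) (kr R) (kr_meas R) g₁ hg₁.measurable).norm
    have hset : ∀ c : ℝ, MeasurableSet {ξ | c < ‖tr (volume.restrict U) (kr R) g ξ‖} :=
      fun c => measurableSet_lt measurable_const htm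
    have e1 : ∀ (S : Set (E 3)), S ⊆ un θ J → ∀ c : ℝ,
        S ∩ {ξ | c < ‖tr (volume.restrict U) (kr R) g ξ‖} = S ∩ {ξ | c * F < ‖ext U f ξ‖} := by
      intro S hS c
      ext ξ
      simp only [Set.mem_inter_iff, Set.mem_ofPred_eq]
      refine and_congr_right fun hξ => ?_
      rw [hgext ξ (hYJb (hS hξ)), ← div_eq_inv_mul, lt_div_iff₀ hFpos]
    have hl : (volume.restrict (un θ J)).real
        (un θ I ∩ {y | (1 / 2 : ℝ) ^ (n + 1) < ‖tr (volume.restrict U) (kr R) g y‖}) =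
        volume.real (un θ I ∩ {ξ | (1 / 2 : ℝ) ^ (n + 1) * F < ‖ext U f ξ‖}) := by
      rw [measureReal_restrict_apply (hYI.inter (hset _)),
        Set.inter_eq_left.2 (Set.inter_subset_left.trans hYIJ), e1 _ hYIJ]
    have hr : (volume.restrict (un θ J)).real
        {y | (1 / 2 : ℝ) ^ (n + 1) / 2 < ‖tr (volume.restrict U) (kr R) g y‖} =
        volume.real (un θ J ∩ {ξ | (1 / 2 : ℝ) ^ (n + 1) / 2 * F < ‖ext U f ξ‖}) := by
      rw [measureReal_restrict_apply (hset _), Set.inter_comm, e1 _ le_rfl]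
    rw [hl, hr] at h
    have h1 : volume.real (un θ I ∩ {ξ | s * F < ‖ext U f ξ‖}) ≤
        volume.real (un θ I ∩ {ξ | (1 / 2 : ℝ) ^ (n + 1) * F < ‖ext U f ξ‖}) := by
      refine measureReal_mono (Set.inter_subset_inter_right _ fun ξ hξ => ?_)
        (hfin _ (Set.inter_subset_left.trans (hYIJ.trans hYJb)))
      exact lt_of_le_of_lt (mul_le_mul_of_nonneg_right hn1.le hF0) hξ
    have h2 : volume.real (un θ J ∩ {ξ | (1 / 2 : ℝ) ^ (n + 1) / 2 * F < ‖ext U f ξ‖}) ≤
        volume.real (un θ J ∩ {ξ | s / 4 * F < ‖ext U f ξ‖}) := by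
      refine measureReal_mono (Set.inter_subset_inter_right _ fun ξ hξ => ?_)
        (hfin _ (Set.inter_subset_left.trans hYJb))
      refine lt_of_le_of_lt (mul_le_mul_of_nonneg_right ?_ hF0) hξ
      rw [pow_succ]
      linarith
    have h3 : κ * (4 ^ n * (17412 * Lg * Li + a + 3)) ≤ C * Real.log R ^ 2 * κ / s ^ 2 := by
      have h4 : (0 : ℝ) ≤ 17412 * Lg * Li + a + 3 := by positivity
      calc κ * (4 ^ n * (17412 * Lg * Li + a + 3)) ≤ κ * (1 / s ^ 2 * (C * Real.log R ^ 2)) :=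
            mul_le_mul_of_nonneg_left (mul_le_mul h4n hC h4 (by positivity)) hκ.le
        _ = _ := by ring
    have h5 : 2 * ((k : ℝ) / J.card) *
        volume.real (un θ J ∩ {ξ | (1 / 2 : ℝ) ^ (n + 1) / 2 * F < ‖ext U f ξ‖}) ≤
        2 * ((k : ℝ) / J.card) * volume.real (un θ J ∩ {ξ | s / 4 * F < ‖ext U f ξ‖}) :=
      mul_le_mul_of_nonneg_left h2 (by positivity)
    linarith
  · -- the low levels
    push Not at hnK
    have hk4 : (k : ℝ) ≤ 4 ^ n := by
      have h1 : k ≤ 4 ^ Nat.clog 4 k := Nat.le_pow_clog (by norm_num) k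
      have h2 : 4 ^ Nat.clog 4 k ≤ 4 ^ n := Nat.pow_le_pow_right (by norm_num) hnK
      exact_mod_cast h1.trans h2
    have h1 : volume.real (un θ I ∩ {ξ | s * F < ‖ext U f ξ‖}) ≤ k * κ := by
      refine (measureReal_mono Set.inter_subset_left (hfin _ (hYIJ.trans hYJb))).trans ?_
      have := un_vol θ I κ fun i hi => hθκ i (hIJ1 hi)
      rwa [hIJ2] at this
    have h2 : (k : ℝ) * κ ≤ C * Real.log R ^ 2 * κ / s ^ 2 := by
      have h3 : (k : ℝ) ≤ 1 / s ^ 2 := hk4.trans h4n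
      calc (k : ℝ) * κ ≤ 1 / s ^ 2 * κ := mul_le_mul_of_nonneg_right h3 hκ.le
        _ = 1 * (1 / s ^ 2 * κ) := (one_mul _).symm
        _ ≤ (C * Real.log R ^ 2) * (1 / s ^ 2 * κ) :=
            mul_le_mul_of_nonneg_right hC1 (by positivity)
        _ = _ := by ring
    linarith

open Classical in
/-- **Typical regions sample all the level sets.** -/
theorem typical (A B : ℝ) (hA : 0 ≤ A) (hB : 0 ≤ B) :
    ∃ C : ℝ, 0 ≤ C ∧ ∀ R : ℝ, 2 ≤ R → ∀ (κ : ℝ), 0 < κ →
      ∀ (α : Type) (J : Finset α) (k : ℕ)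
      (θ : α → Set (E 3)), 1 ≤ k → k ≤ J.card → (J.card : ℝ) ≤ R ^ B →
      (∀ i ∈ J, MeasurableSet (θ i)) → (∀ i ∈ J, θ i ⊆ Metric.ball 0 R) →
      ((J : Set α).PairwiseDisjoint θ) → (∀ i ∈ J, volume.real (θ i) ≤ κ) →
      (((powersetCard k J).filter (fun I => ¬ Samp C R κ J.card k (un θ J) (un θ I))).card : ℝ) ≤
        R ^ (-A) * ((J.card.choose k : ℕ) : ℝ) := by
  set C1 : ℝ := 2 * Real.log 5 + 2 * ((2 : ℕ) : ℝ) * Real.log (80 * (1 + 1) * (((2 : ℕ) : ℝ) + 1)) +
    ((2 : ℕ) : ℝ) * (B + 1) with hC1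
  have hl5 : 0 ≤ Real.log 5 := Real.log_nonneg (by norm_num)
  have hlc : 0 ≤ Real.log (80 * (1 + 1) * (((2 : ℕ) : ℝ) + 1)) := Real.log_nonneg (by norm_num)
  have hC10 : 0 ≤ C1 := by positivity
  refine ⟨17412 * (4 + B) * C1 + 2 * (A + B) + 12, by positivity, ?_⟩
  intro R hR κ hκ α J k θ hk hkJ hJB hθ hθR hdisj hθκ
  have hℓ := log_half R hR
  have hR0 : (0 : ℝ) < R := by linarith
  have hk1 : (1 : ℝ) ≤ k := by exact_mod_cast hk
  have hkR : (k : ℝ) ≤ R ^ B := le_trans (by exact_mod_cast hkJ) hJB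
  have hJne : J.Nonempty := Finset.card_pos.1 (by omega)
  have hsk : 1 ≤ Real.sqrt k := Real.one_le_sqrt.2 hk1
  set ρ' : ℝ := 1 / (16 * (1 + 1) * (((2 : ℕ) : ℝ) + 1) * Real.sqrt k) with hρ'
  have hρ'0 : 0 < ρ' := by positivity
  have hρ'1 : ρ' = 1 / (96 * Real.sqrt k) := by
    rw [hρ']; norm_num
  have hρ'2 : ρ' ≤ 1 / 96 := by
    rw [hρ'1]
    exact div_le_div_of_nonneg_left (by norm_num) (by norm_num) (by nlinarith)
  set M : ℕ := ⌈R / ρ'⌉₊ with hMd
  have hM' : R ≤ M * ρ' := by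
    rw [← div_le_iff₀ hρ'0]
    exact Nat.le_ceil _
  set ρ : ℝ := ρ' / R with hρd
  have hρ : 0 < ρ := by positivity
  have hρ1 : 2 * ρ ≤ 1 := by
    have : ρ ≤ ρ' := by
      rw [hρd]
      exact div_le_self hρ'0.le (by linarith)
    linarith
  have hM : 1 ≤ M * ρ := by
    rw [hρd, mul_div_assoc', le_div_iff₀ hR0, one_mul]
    exact hM'
  have hρk : 3 * R * (2 * ρ) ≤ 1 / (16 * Real.sqrt k) := by
    have e : 3 * R * (2 * ρ) = 6 * ρ' := by
      rw [hρd]; field_simp; ring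
    rw [e, hρ'1]
    rw [mul_one_div, div_le_div_iff₀ (by positivity) (by positivity)]
    nlinarith
  set Li : ℝ := Real.log (((2 * (M : ℝ) + 1) ^ 2) * 4 + 1) with hLid
  have hLi0 : 0 ≤ Li := by
    refine Real.log_nonneg ?_
    have : (0 : ℝ) ≤ (2 * (M : ℝ) + 1) ^ 2 := by positivity
    linarith
  have hcard : ((Fintype.card (Option ((Fin 2 → Fin (2 * M + 1)) × Fin 4)) : ℕ) : ℝ) ≤
      Real.exp Li := by
    rw [hLid, Real.exp_log (by positivity), Fintype.card_option, Fintype.card_prod,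
      Fintype.card_fin, Fintype.card_fun, Fintype.card_fin, Fintype.card_fin]
    push_cast
    exact le_rfl
  set Lg : ℝ := 2 + B * Real.log R with hLgd
  have hBℓ : 0 ≤ B * Real.log R := mul_nonneg hB (by linarith)
  have hLg1 : 1 ≤ Lg := by linarith
  set a : ℝ := (A + B) * Real.log R with had
  have ha : 0 ≤ a := mul_nonneg (by linarith) (by linarith)
  have hYJb := un_ball θ J R hθR
  have hfin : IsFiniteMeasure ((volume : Measure (E 3)).restrict (un θ J)) :=
    ⟨by rw [Measure.restrict_apply_univ]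
        exact (measure_mono hYJb).trans_lt measure_ball_lt_top⟩
  have hexc : 4 * (volume.restrict (un θ J)).real Set.univ * Real.exp (-Lg) ≤ κ := by
    have e : Real.exp (-Lg) = Real.exp (-2) * R ^ (-B) := by
      rw [hLgd, neg_add, Real.exp_add, Real.rpow_def_of_pos hR0]
      congr 2
      ring
    have h1 : (volume.restrict (un θ J)).real Set.univ ≤ R ^ B * κ := by
      rw [measureReal_restrict_apply MeasurableSet.univ, Set.univ_inter]
      exact (un_vol θ J κ hθκ).trans (mul_le_mul_of_nonneg_right hJB hκ.le)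
    have h2 : 4 * Real.exp (-2) ≤ 1 := by
      have h3 : Real.exp (-2) = (Real.exp 1 ^ 2)⁻¹ := by
        rw [← Real.exp_nat_mul, ← Real.exp_neg]
        norm_num
      rw [h3]
      have h4 := Real.exp_one_gt_d9
      have h5 : (4 : ℝ) ≤ Real.exp 1 ^ 2 := by nlinarith
      rw [← div_eq_mul_inv, div_le_one (by positivity)]
      exact h5
    have h6 : R ^ B * R ^ (-B) = 1 := by
      rw [← Real.rpow_add hR0, add_neg_cancel, Real.rpow_zero]
    rw [e]
    calc 4 * (volume.restrict (un θ J)).real Set.univ * (Real.exp (-2) * R ^ (-B)) ≤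
          4 * (R ^ B * κ) * (Real.exp (-2) * R ^ (-B)) := by
            refine mul_le_mul_of_nonneg_right (by linarith) (by positivity)
      _ = (4 * Real.exp (-2)) * ((R ^ B * R ^ (-B)) * κ) := by ring
      _ ≤ 1 * ((R ^ B * R ^ (-B)) * κ) :=
            mul_le_mul_of_nonneg_right h2 (by positivity)
      _ = κ := by rw [h6]; ring
  have hLile : Li ≤ C1 * Real.log R := by
    have := Li_bound (d := 2) 1 (by norm_num) B R hR k hk hkR ρ' hρ'
    exact this
  have hLgle : Lg ≤ (4 + B) * Real.log R := by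
    rw [hLgd]
    nlinarith
  have hgc := good_count (volume.restrict (un θ J)) J hJne k hk θ hθ hdisj κ hκ (fun i hi => by
      rw [measureReal_restrict_apply (hθ i hi)]
      refine (measureReal_mono Set.inter_subset_left ?_).trans (hθκ i hi)
      exact ((measure_mono (hθR i hi)).trans_lt measure_ball_lt_top).ne) (Ab R ρ M) (Ab_meas R ρ M)
      Lg Li a hcard
  have hbad : (k : ℝ) * Real.exp (-a) ≤ R ^ (-A) := by
    have e : Real.exp (-a) = R ^ (-(A + B)) := by
      rw [Real.rpow_def_of_pos hR0, had]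
      congr 1
      ring
    rw [e]
    calc (k : ℝ) * R ^ (-(A + B)) ≤ R ^ B * R ^ (-(A + B)) :=
          mul_le_mul_of_nonneg_right hkR (by positivity)
      _ = R ^ (-A) := by
          rw [← Real.rpow_add hR0]
          congr 1
          ring
  refine le_trans ?_ (hgc.trans (mul_le_mul_of_nonneg_right hbad (Nat.cast_nonneg _)))
  refine Nat.cast_le.2 (Finset.card_le_card ?_)
  intro I hI
  rw [Finset.mem_filter] at hI ⊢
  refine ⟨hI.1, fun hgood => hI.2 ?_⟩
  have hℓ2 : 1 ≤ 4 * Real.log R ^ 2 := by nlinarith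
  have hCC : 17412 * Lg * Li + a + 3 ≤
      (17412 * (4 + B) * C1 + 2 * (A + B) + 12) * Real.log R ^ 2 := by
    have h1 : Lg * Li ≤ ((4 + B) * Real.log R) * (C1 * Real.log R) :=
      mul_le_mul hLgle hLile hLi0 (mul_nonneg (by linarith) (by linarith))
    have h2 : a ≤ 2 * (A + B) * Real.log R ^ 2 := by
      have h3 : Real.log R ≤ 2 * Real.log R ^ 2 := by nlinarith
      calc a ≤ (A + B) * (2 * Real.log R ^ 2) := mul_le_mul_of_nonneg_left h3 (by linarith)
        _ = _ := by ring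
    calc 17412 * Lg * Li + a + 3 = 17412 * (Lg * Li) + a + 3 := by ring
      _ ≤ 17412 * (((4 + B) * Real.log R) * (C1 * Real.log R)) + 2 * (A + B) * Real.log R ^ 2 +
          12 * Real.log R ^ 2 := by linarith
      _ = _ := by ring
  refine samp_of_good R hR J k hk θ hθ hθR κ hκ hθκ ρ hρ hρ1 M hM hρk Lg Li a hLg1 hLi0 ha hexc
    I hI.1 hgood _ ?_ hCC
  have : 0 ≤ 17412 * Lg * Li := by positivity
  linarith

end Pool.Agent.J6H90.RG
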